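import Pool.Agent.MP_62f0b1_an.xm.Sharp
import Pool.Agent.MP_62f0b1_an.ft.Mero2

/-!
Quotients of leading forms of meromorphic first integrals next to a collision are invariant along
the regular solution of the normal variational equation.
-/

set_option autoImplicit false
set_option linter.unusedSectionVars false

open Set Real Filter Topology Asymptotics

namespace Pool.Agent.MP_62f0b1_an.Xm

open Xi Ft

/-- At most polynomial growth. -/
def Tm (f : ℝ → ℝ) : Prop := ∃ K : ℕ, f =O[atTop] fun l => l ^ K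

/-- Exponential decay up to a polynomial factor. -/
def Sm (f : ℝ → ℝ) : Prop := ∃ K : ℕ, f =O[atTop] fun l => exp (-l) * l ^ K

/-- `g` grows at most polynomially and approximates `f`. -/
def Ap (f g : ℝ → ℝ) : Prop := Sm (fun l => f l - g l) ∧ Tm g

section asy
variable {f g f' g' : ℝ → ℝ}

theorem pow_O {j k : ℕ} (h : j ≤ k) : (fun l : ℝ => l ^ j) =O[atTop] fun l => l ^ k :=
  IsBigO.of_bound' (by
    filter_upwards [eventually_ge_atTop (1 : ℝ)] with l hl
    rw [norm_pow, norm_pow]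
    exact pow_le_pow_right₀ (hl.trans (le_abs_self l)) h)

theorem tm_const (x : ℝ) : Tm fun _ => x :=
  ⟨0, by simpa using isBigO_const_const x (c' := (1 : ℝ)) one_ne_zero atTop⟩

theorem Tm.add (hf : Tm f) (hg : Tm g) : Tm fun l => f l + g l :=
  let ⟨j, hj⟩ := hf
  let ⟨k, hk⟩ := hg
  ⟨j + k, (hj.trans (pow_O (by omega))).add (hk.trans (pow_O (by omega)))⟩

theorem Tm.mul (hf : Tm f) (hg : Tm g) : Tm fun l => f l * g l :=
  let ⟨j, hj⟩ := hf
  let ⟨k, hk⟩ := hg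
  ⟨j + k, by simpa only [pow_add] using hj.mul hk⟩

theorem Tm.pow (hf : Tm f) (n : ℕ) : Tm fun l => f l ^ n :=
  let ⟨j, hj⟩ := hf
  ⟨j * n, by simpa only [pow_mul] using hj.pow n⟩

theorem Tm.of_O (hg : Tm g) (h : f =O[atTop] g) : Tm f := let ⟨j, hj⟩ := hg; ⟨j, h.trans hj⟩

theorem Sm.of_O (hg : Sm g) (h : f =O[atTop] g) : Sm f := let ⟨j, hj⟩ := hg; ⟨j, h.trans hj⟩

theorem Sm.add (hf : Sm f) (hg : Sm g) : Sm fun l => f l + g l :=
  let ⟨j, hj⟩ := hf
  let ⟨k, hk⟩ := hg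
  ⟨j + k, (hj.trans ((isBigO_refl _ _).mul (pow_O (by omega)))).add
    (hk.trans ((isBigO_refl _ _).mul (pow_O (by omega))))⟩

theorem Sm.mul (hf : Sm f) (hg : Tm g) : Sm fun l => f l * g l :=
  let ⟨j, hj⟩ := hf
  let ⟨k, hk⟩ := hg
  ⟨j + k, by simpa only [pow_add, mul_assoc] using hj.mul hk⟩

theorem Sm.tendsto (hf : Sm f) : Tendsto f atTop (𝓝 0) :=
  let ⟨j, hj⟩ := hf
  hj.trans_tendsto (by simpa only [mul_comm] using tendsto_pow_mul_exp_neg_atTop_nhds_zero j)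

theorem Sm.tm (hf : Sm f) : Tm f := ⟨0, by simpa using hf.tendsto.isBigO_one ℝ⟩

theorem sm_exp : Sm fun l => exp (-l) :=
  ⟨0, by simpa using isBigO_refl (fun l : ℝ => exp (-l)) atTop⟩

theorem sm_pow {n : ℕ} (hn : n ≠ 0) : Sm fun l => exp (-l) ^ n := by
  obtain ⟨k, rfl⟩ := Nat.exists_eq_succ_of_ne_zero hn
  simpa only [pow_succ'] using sm_exp.mul (sm_exp.tm.pow k)

theorem Ap.tm (h : Ap f g) : Tm f := by simpa using h.1.tm.add h.2

theorem Ap.mul (h : Ap f g) (h' : Ap f' g') : Ap (fun l => f l * f' l) fun l => g l * g' l :=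
  ⟨((h.1.mul h'.tm).add (h'.1.mul h.2)).of_O
    (EventuallyEq.isBigO (Eventually.of_forall fun l => by ring)), h.2.mul h'.2⟩

theorem Ap.pow (h : Ap f g) (n : ℕ) : Ap (fun l => f l ^ n) fun l => g l ^ n := by
  induction n with
  | zero => exact ⟨⟨0, by simpa using isBigO_zero _ _⟩, by simpa using tm_const 1⟩
  | succ n ih => simpa only [pow_succ] using ih.mul h

theorem Ap.sm (h : Ap f g) (hf : Sm f) : Sm g :=
  (hf.add (h.1.mul (tm_const (-1)))).of_O
    (EventuallyEq.isBigO (Eventually.of_forall fun l => by ring))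

theorem tri (h : Ap f g) (h' : Ap f' g') {i j : ℕ}
    (e : ∀ᶠ l in atTop, (exp (-l) ^ 8) ^ i * f l = (exp (-l) ^ 8) ^ j * f' l) :
    Sm fun l => (g l - g' l) * (g l * g' l) := by
  have key : ∀ {f g f' g' : ℝ → ℝ} {i d : ℕ}, Ap f g → Ap f' g' →
      (∀ᶠ l in atTop, (exp (-l) ^ 8) ^ i * f l = (exp (-l) ^ 8) ^ (i + d) * f' l) →
      Sm fun l => (g l - g' l) * (g l * g' l) := fun {f g f' g' i d} h h' e => by
    have e1 : f =ᶠ[atTop] fun l => exp (-l) ^ (8 * d) * f' l := e.mono fun l hl =>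
      mul_left_cancel₀ (show (exp (-l) ^ 8) ^ i ≠ 0 by positivity) (by rw [hl]; ring)
    rcases Nat.eq_zero_or_pos d with rfl | hd
    · refine Sm.mul ((h'.1.add (h.1.mul (tm_const (-1)))).of_O (EventuallyEq.isBigO ?_))
        (h.2.mul h'.2)
      filter_upwards [e1] with l hl
      rw [hl]; ring
    · have := h.sm (((sm_pow (by omega)).mul h'.tm).of_O e1.isBigO)
      exact (this.mul ((h.2.add (h'.2.mul (tm_const (-1)))).mul h'.2)).of_O
        (EventuallyEq.isBigO (Eventually.of_forall fun l => by ring))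
  rcases le_total i j with hi | hi
  · obtain ⟨d, rfl⟩ := Nat.exists_eq_add_of_le hi
    exact key h h' e
  · obtain ⟨d, rfl⟩ := Nat.exists_eq_add_of_le hi
    exact ((key h' h (e.mono fun l hl => hl.symm)).mul (tm_const (-1))).of_O
      (EventuallyEq.isBigO (Eventually.of_forall fun l => by ring))

theorem poly_zero {Q : Polynomial ℝ} {m : ℝ → ℝ} (hm : Tendsto (fun l => ‖m l‖) atTop atTop)
    (h : Tendsto (fun l => Q.eval (m l)) atTop (𝓝 0)) : Q = 0 := by
  by_cases hd : 0 < Q.degree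
  · exact absurd (Q.tendsto_norm_atTop hd hm) (not_tendsto_atTop_of_tendsto_nhds h.norm)
  · rw [Polynomial.eq_C_of_degree_le_zero (not_lt.1 hd)] at h ⊢
    simp only [Polynomial.eval_C] at h
    rw [tendsto_nhds_unique tendsto_const_nhds h, map_zero]

end asy

section gen
variable {E : Type*} [NormedAddCommGroup E] [NormedSpace ℝ E] {f g : E → ℝ}

theorem lead_ap {G p : E → ℝ} {x : E} {k : ℕ} (h : Lead G x k p) {w e : ℝ → E}
    (hw : Tm fun l => ‖w l‖) (he : Sm fun l => ‖e l‖) :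
    Ap (fun l => G (x + exp (-l) ^ 8 • (w l + e l)) / (exp (-l) ^ 8) ^ k) fun l => p (w l) := by
  have hom := h.hom
  obtain ⟨P, hP, h2⟩ := h
  have nc : ∀ v : E, ‖fun _ : Fin k => v‖ ≤ ‖v‖ := fun v =>
    (pi_norm_le_iff_of_nonneg (norm_nonneg _)).2 fun _ => le_rfl
  have h3 : Tm fun l => ‖w l + e l‖ := (hw.add he.tm).of_O (IsBigO.of_bound' (Eventually.of_forall
    fun l => by simpa using (norm_add_le _ _).trans (le_abs_self _)))
  have h4 : Sm fun l => p (w l + e l) - p (w l) :=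
    (he.mul ((h3.add hw).pow (k - 1))).of_O (IsBigO.of_bound (‖P‖ * k) (Eventually.of_forall
      fun l => by
        rw [hP, hP]
        refine (P.norm_image_sub_le _ _).trans ?_
        rw [Fintype.card_fin, Real.norm_of_nonneg (by positivity), mul_comm ‖e l‖, ← mul_assoc]
        gcongr
        · exact max_le ((nc _).trans (le_add_of_nonneg_right (norm_nonneg _)))
            ((nc _).trans (le_add_of_nonneg_left (norm_nonneg _)))
        · refine le_of_eq_of_le (congrArg _ ?_) (nc (e l))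
          ext i; simp))
  have h5 : Tendsto (fun l => exp (-l) ^ 8 • (w l + e l)) atTop (𝓝 0) := by
    rw [tendsto_zero_iff_norm_tendsto_zero]
    refine ((sm_pow (n := 8) (by norm_num)).mul h3).tendsto.congr fun l => ?_
    rw [norm_smul, Real.norm_of_nonneg (by positivity)]
  refine ⟨(h4.add (((sm_pow (n := 8) (by norm_num)).mul (h3.pow (k + 1))).of_O
    (f := fun l => (G (x + exp (-l) ^ 8 • (w l + e l)) - p (exp (-l) ^ 8 • (w l + e l))) *
      ((exp (-l) ^ 8) ^ k)⁻¹) ?_)).of_O (EventuallyEq.isBigO (Eventually.of_forall fun l => ?_)),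
    (hw.pow k).of_O (IsBigO.of_bound ‖P‖ (Eventually.of_forall fun l => ?_))⟩
  · refine ((h2.comp_tendsto h5).mul (isBigO_refl (fun l => ((exp (-l) ^ 8) ^ k)⁻¹) _)).trans
      (EventuallyEq.isBigO (Eventually.of_forall fun l => ?_))
    simp only [Function.comp]
    rw [norm_smul, Real.norm_of_nonneg (by positivity), mul_pow]
    field_simp
    ring
  · simp only [hom]
    field_simp
    ring
  · simpa [hP] using P.le_opNorm fun _ => w l

/-- Polynomial along lines and not identically zero. -/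
def NZ (f : E → ℝ) : Prop := LP f ∧ ∃ v, f v ≠ 0

theorem NZ.mul (hf : NZ f) (hg : NZ g) : NZ fun v => f v * g v :=
  ⟨hf.1.mul hg.1, hf.1.ne_mul hg.1 hf.2 hg.2⟩

theorem NZ.pow (hf : NZ f) (D : ℕ) : NZ fun v => f v ^ D :=
  ⟨hf.1.pow D, let ⟨v, hv⟩ := hf.2; ⟨v, pow_ne_zero _ hv⟩⟩

theorem NZ.aff (hf : NZ f) {L : E → E} (hL : Lin L) (hs : Function.Surjective L) (c : E) :
    NZ fun v => f (L v + c) :=
  ⟨(hf.1.shift c).comp hL, let ⟨v, hv⟩ := hf.2; let ⟨w, hw⟩ := hs (v - c); ⟨w, by simpa [hw]⟩⟩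

theorem lp_of_add (h : ∀ v w (τ : ℝ), f (v + τ • w) = f v + τ * f w) : LP f := fun v w =>
  ⟨Polynomial.C (f v) + Polynomial.X * Polynomial.C (f w), fun τ => by
    rw [h, Polynomial.eval_add, Polynomial.eval_mul, Polynomial.eval_C, Polynomial.eval_C,
      Polynomial.eval_X]⟩

theorem lp_const (x : ℝ) : LP fun _ : E => x := fun _ _ => ⟨Polynomial.C x, fun _ => by simp⟩

variable {F : Type*} [NormedAddCommGroup F] [NormedSpace ℝ F] {N H p h : E → ℝ}

theorem dat_comp (L : F ≃L[ℝ] E) {x : F} (d : Dat N H (L x) p h) :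
    Dat (fun v => N (L v)) (fun v => H (L v)) x (fun v => p (L v)) fun v => h (L v) := by
  obtain ⟨⟨a, la⟩, ⟨b, lb⟩, ⟨v, hv⟩, w, hw⟩ := d
  exact ⟨⟨a, lead_comp la (L : F →L[ℝ] E) fun v => by simp⟩,
    ⟨b, lead_comp lb (L : F →L[ℝ] E) fun v => by simp⟩, ⟨L.symm v, by simpa⟩, L.symm w, by simpa⟩

theorem dirQ_comp (L : F ≃L[ℝ] E) {x w : F} {D : ℕ}
    (h1 : DirQ (fun v => N (L v)) (fun v => H (L v)) D x w) : DirQ N H D (L x) (L w) :=
  fun p h d v τ => by simpa using h1 _ _ (dat_comp L d) (L.symm v) τ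

end gen

variable {ι : Type*} [Fintype ι] [DecidableEq ι]
variable {nx pv : ι → ι} {c : ι} {X σ σ' : ι → ℝ} {T a T' a' : ℝ} {η η' : ℝ → ι → ℝ} {K K' : ℝ}
  {N H p h p' h' : (ι → ℂ) → ℝ} {D : ℕ}

theorem coll_poly (S : Side nx pv c X σ T a) (S' : Side pv nx c X σ' T' a')
    (hσ : ∀ i, i ≠ c → σ' i = -σ i) (R : Reg nx pv c X σ T η K) (R' : Reg pv nx c X σ' T' η' K')
    (hI : ∀ A B, Conn nx pv A B → H A ≠ 0 → H B ≠ 0 → N A * H B ^ D = N B * H A ^ D)
    (d : Dat N H (bp X σ T) p h) (d' : Dat N H (bp X σ' T') p' h')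
    {ν ν' ζ : ι → ℂ} (hg : pr nx pv (η T) ν ≠ 0) (h1 : Rel nx pv c X σ T ν ζ)
    (h2 : Rel pv nx c X σ' T' ν' (ζ - Pi.single c ((ζ (nx c) - ζ (pv c)).re : ℂ)))
    (hε : (ζ (nx c) - ζ (pv c)).im ≠ 0) (τ : ℝ) :
    (p' (ν' + τ • nd (η' T')) * h' (ν' + τ • nd (η' T')) * h ν ^ (D + 1) -
      p ν * h ν * h' (ν' + τ • nd (η' T')) ^ (D + 1)) *
      (p' (ν' + τ • nd (η' T')) * h' (ν' + τ • nd (η' T')) * h ν ^ (D + 1) *
        (p ν * h ν * h' (ν' + τ • nd (η' T')) ^ (D + 1))) = 0 := by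
  obtain ⟨C, hC0, hC⟩ := sharp S S' hσ R R' hg h1 h2 hε
  obtain ⟨φ, hφ⟩ := hC.choice
  set ε := (ζ (nx c) - ζ (pv c)).im
  set u := nd (η' T')
  have hε0 : 0 < |ε| := abs_pos.2 hε
  have t1 : Tendsto (fun l => ‖(φ l).1‖) atTop atTop := by
    refine tendsto_atTop_mono' _ ?_ (tendsto_atTop_add_const_right _ (-(C / |ε|))
      (tendsto_id.const_mul_atTop hε0))
    filter_upwards [hφ] with l ⟨_, b2, _⟩
    refine le_of_mul_le_mul_left ?_ hε0
    have e : |ε| * (|ε| * id l + -(C / |ε|)) = ε ^ 2 * l - C := by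
      rw [← sq_abs ε, id]; field_simp; ring
    rw [e, Real.norm_eq_abs, ← abs_mul]
    linarith [neg_abs_le (ε * (φ l).1)]
  have t2 : Tm fun l => ‖ν' + (φ l).1 • u‖ := by
    have b : Tm fun l => (φ l).1 := ⟨1, IsBigO.of_bound C (by
      filter_upwards [hφ] with l ⟨b1, _⟩
      exact b1.trans (by gcongr; simpa using le_abs_self l))⟩
    refine ((tm_const ‖ν'‖).add ((b.of_O (isBigO_refl _ _).norm_left).mul
      (tm_const ‖u‖))).of_O (IsBigO.of_bound' (Eventually.of_forall fun l => ?_))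
    rw [norm_norm, ← norm_smul]
    exact (norm_add_le _ _).trans (le_abs_self _)
  have t3 : Sm fun l => ‖(φ l).2‖ := ⟨1, IsBigO.of_bound C (by
    filter_upwards [hφ] with l ⟨_, _, b3, _⟩
    rw [norm_norm, pow_one]
    exact b3.trans (by gcongr; exact le_abs_self _))⟩
  have t4 : Sm fun _ : ℝ => ‖(0 : ι → ℂ)‖ := ⟨0, by simpa using isBigO_zero _ _⟩
  have lp := d'.lp
  have lh := d'.lh
  obtain ⟨⟨i, l1⟩, ⟨j, l2⟩, -, -⟩ := d
  obtain ⟨⟨i', l3⟩, ⟨j', l4⟩, -, -⟩ := d'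
  have a1 := lead_ap l1 (tm_const ‖ν‖) t4
  have a2 := lead_ap l2 (tm_const ‖ν‖) t4
  have a3 := lead_ap l3 t2 t3
  have a4 := lead_ap l4 t2 t3
  have main := tri ((a3.mul a4).mul (a2.pow (D + 1))) ((a1.mul a2).mul (a4.pow (D + 1)))
    (i := i' + j' + j * (D + 1)) (j := i + j + j' * (D + 1)) (by
      filter_upwards [hφ] with l ⟨_, _, _, b4⟩
      rw [add_zero]
      generalize bp X σ' T' + exp (-l) ^ 8 • (ν' + (φ l).1 • u + (φ l).2) = A at b4 ⊢
      generalize bp X σ T + exp (-l) ^ 8 • ν = B at b4 ⊢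
      have hs : exp (-l) ^ 8 ≠ 0 := by positivity
      generalize exp (-l) ^ 8 = s at hs
      have b5 : N A * H A * H B ^ (D + 1) = N B * H B * H A ^ (D + 1) := by
        by_cases c1 : H A = 0
        · simp [c1]
        by_cases c2 : H B = 0
        · simp [c2]
        linear_combination H A * H B * hI A B b4 c1 c2
      have cl : ∀ (x y z : ℝ) (i j k : ℕ), s ^ (i + j + k * (D + 1)) *
          (x / s ^ i * (y / s ^ j) * (z / s ^ k) ^ (D + 1)) = x * y * z ^ (D + 1) :=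
        fun x y z i j k => by
          rw [div_pow, ← pow_mul s, pow_add s, pow_add s]
          field_simp
      rw [cl, cl, b5])
  obtain ⟨Q, hQ⟩ := ((((lp.mul lh).mul (lp_const (h ν ^ (D + 1)))).sub
    ((lp_const (p ν * h ν)).mul (lh.pow (D + 1)))).mul
    (((lp.mul lh).mul (lp_const (h ν ^ (D + 1)))).mul
      ((lp_const (p ν * h ν)).mul (lh.pow (D + 1))))) ν' u
  beta_reduce at hQ
  rw [hQ, poly_zero (Q := Q) t1 (by simpa only [hQ] using main.tendsto), Polynomial.eval_zero]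

theorem collQ (S : Side nx pv c X σ T a) (S' : Side pv nx c X σ' T' a')
    (hσ : ∀ i, i ≠ c → σ' i = -σ i) (R : Reg nx pv c X σ T η K) (R' : Reg pv nx c X σ' T' η' K')
    {ν₀ : ι → ℂ} (h0 : pr nx pv (η T) ν₀ ≠ 0) (hne : nx c ≠ pv c)
    (hI : ∀ A B, Conn nx pv A B → H A ≠ 0 → H B ≠ 0 → N A * H B ^ D = N B * H A ^ D)
    (hd : (∃ p h, Dat N H (bp X σ T) p h) → ∃ p h, Dat N H (bp X σ' T') p h) :
    DirQ N H D (bp X σ T) (nd (η T)) := by
  intro p h d
  obtain ⟨p', h', d'⟩ := hd ⟨p, h, d⟩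
  obtain ⟨B, hB, hBu⟩ := exists_map S R
  obtain ⟨B', hB', hBu'⟩ := exists_map S' R'
  let L : (ι → ℂ) → ι → ℂ := fun ν =>
    B'.symm (B ν - Pi.single c ((B ν (nx c) - B ν (pv c)).re : ℂ))
  have hL : Lin L := fun v w τ => by
    simp only [L, ← map_smul, ← map_add]
    congr 1
    ext i
    by_cases hi : i = c
    · simp [hi]; ring
    · simp [hi]
  have hs : Function.Surjective L := fun v =>
    ⟨B.symm (B' v + Pi.single c ((B' v (nx c) - B' v (pv c)).re : ℂ)), by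
      simp [L, S.ne1, S.ne2]⟩
  have hu : L (nd (η T)) = nd (η' T') := by
    simp only [L, hBu, Pi.single_eq_of_ne S.ne1, Pi.single_eq_of_ne S.ne2]
    simp [← hBu']
  have n1 : NZ p := ⟨d.lp, d.2.2.1⟩
  have n2 : NZ h := ⟨d.lh, d.2.2.2⟩
  have n3 : NZ p' := ⟨d'.lp, d'.2.2.1⟩
  have n4 : NZ h' := ⟨d'.lh, d'.2.2.2⟩
  have n5 : NZ (pr nx pv (η T)) := ⟨lp_of_add fun v w τ => by
    simp only [pr, Finset.mul_sum, ← Finset.sum_add_distrib]
    exact Finset.sum_congr rfl fun i _ => by simp; ring, ν₀, h0⟩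
  have n6 : NZ fun ν => (B ν (nx c) - B ν (pv c)).im := ⟨lp_of_add fun v w τ => by simp; ring,
    B.symm (Pi.single (nx c) Complex.I), by simp [hne.symm]⟩
  have key : ∀ (τ : ℝ) ν, p' (L ν + τ • nd (η' T')) * h ν ^ D =
      p ν * h' (L ν + τ • nd (η' T')) ^ D := fun τ ν => by
    have m3 := n3.aff hL hs (τ • nd (η' T'))
    have m4 := n4.aff hL hs (τ • nd (η' T'))
    have m5 := ((m4.mul n2).mul (((m3.mul m4).mul (n2.pow (D + 1))).mul
      ((n1.mul n2).mul (m4.pow (D + 1))))).mul (n5.mul n6)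
    refine sub_eq_zero.1 (((m3.1.mul (n2.pow D).1).sub (n1.1.mul (m4.pow D).1)).cancel
      m5.1 m5.2 (fun ν => ?_) ν)
    by_cases c1 : pr nx pv (η T) ν = 0
    · simp [c1]
    by_cases c2 : (B ν (nx c) - B ν (pv c)).im = 0
    · simp only [c2, mul_zero]
    have := coll_poly S S' hσ R R' hI d d' c1 (hB ν) (ν' := L ν)
      (by simpa only [L, B'.apply_symm_apply] using hB' (L ν)) c2 τ
    linear_combination (pr nx pv (η T) ν * (B ν (nx c) - B ν (pv c)).im) * this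
  intro v τ
  have m4 := (n4.aff hL hs (τ • nd (η' T'))).pow D
  refine sub_eq_zero.1 ((((d.lp.shift (τ • nd (η T))).mul (d.lh.pow D)).sub
    (d.lp.mul ((d.lh.shift (τ • nd (η T))).pow D))).cancel m4.1 m4.2 (fun ν => ?_) v)
  have k1 := key τ ν
  have k2 := key 0 (ν + τ • nd (η T))
  rw [hL, hu, zero_smul, add_zero] at k2
  linear_combination h (ν + τ • nd (η T)) ^ D * k1 - h ν ^ D * k2

end Pool.Agent.MP_62f0b1_an.Xm
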