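import Pool.Agent.MP_62f0b1_an.xi.Mid

/-!
The variational equation along a collinear orbit that ends in a collision: the linear map from
the data at time `T` to the regularised data at the collision is a bijection.
-/

set_option autoImplicit false
set_option linter.unusedSectionVars false

open Set Real Filter Topology

namespace Pool.Agent.MP_62f0b1_an.Xm

open Xi

variable {ι : Type*} [Fintype ι] [DecidableEq ι]

/-- Right-hand side of the variational equation along the base orbit. -/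
noncomputable def lv (nx pv : ι → ι) (X σ : ι → ℝ) (t : ℝ) (v : ι → ℂ) (i : ι) : ℂ :=
  Complex.I * ((v (nx i) - v (pv i)).im / gp nx pv X σ t i : ℝ)

/-- Solutions of the variational equation. -/
def LS (nx pv : ι → ι) (X σ : ι → ℝ) (V : ℝ → ι → ℂ) (u v : ℝ) : Prop :=
  ∀ t ∈ Icc u v, ∀ i, HasDerivAt (fun t => V t i) (lv nx pv X σ t (V t) i) t

/-- The logarithmic term of the singular component. -/
noncomputable def lg (nx pv : ι → ι) (c : ι) (ζ : ι → ℂ) (t : ℝ) (i : ι) : ℂ :=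
  if i = c then Complex.I * ((ζ (nx c) - ζ (pv c)).im / 2 * log t : ℝ) else 0

/-- `ζ` is the regularised collision datum of the solution with value `ν` at time `T`. -/
def Rel (nx pv : ι → ι) (c : ι) (X σ : ι → ℝ) (T : ℝ) (ν ζ : ι → ℂ) : Prop :=
  ∃ C, 0 ≤ C ∧ ∀ u ∈ Ioc 0 T, ∃ V : ℝ → ι → ℂ, V T = ν ∧ LS nx pv X σ V u T ∧
    ∀ i, ‖V u i - ζ i - lg nx pv c ζ u i‖ ≤ C * √u

variable {nx pv : ι → ι} {c : ι} {X σ : ι → ℝ} {T a : ℝ} {η : ℝ → ι → ℝ} {H : ℝ}

theorem lv_add (t : ℝ) (v w : ι → ℂ) (i : ι) :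
    lv nx pv X σ t (v + w) i = lv nx pv X σ t v i + lv nx pv X σ t w i := by
  simp only [lv, Pi.add_apply, Complex.sub_im, Complex.add_im]; push_cast; ring

theorem lv_smul (t r : ℝ) (v : ι → ℂ) (i : ι) :
    lv nx pv X σ t (r • v) i = r • lv nx pv X σ t v i := by
  simp only [lv, Pi.smul_apply, Complex.sub_im, Complex.real_smul,
    Complex.mul_im, Complex.ofReal_re, Complex.ofReal_im]
  push_cast; ring

theorem LS.add {V W : ℝ → ι → ℂ} {u v : ℝ} (h : LS nx pv X σ V u v) (h' : LS nx pv X σ W u v) :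
    LS nx pv X σ (fun t => V t + W t) u v := fun t ht i =>
  ((h t ht i).add (h' t ht i)).congr_deriv (lv_add _ _ _ _).symm

theorem LS.smul {V : ℝ → ι → ℂ} {u v : ℝ} (h : LS nx pv X σ V u v) (r : ℝ) :
    LS nx pv X σ (fun t => r • V t) u v := fun t ht i =>
  ((h t ht i).const_smul r).congr_deriv (lv_smul _ _ _ _).symm

theorem LS.mono {V : ℝ → ι → ℂ} {u u' v : ℝ} (h : LS nx pv X σ V u v) (hu : u ≤ u') :
    LS nx pv X σ V u' v := fun t ht => h t ⟨hu.trans ht.1, ht.2⟩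

theorem ls_reg (R : Reg nx pv c X σ T η H) {u : ℝ} (hu : 0 < u) :
    LS nx pv X σ (fun t => nd (η t)) u T := fun t ht i =>
  ((R.der t ⟨hu.trans_le ht.1, ht.2⟩ i).ofReal_comp.const_mul Complex.I).congr_deriv
    (by simp [lv, nd])

theorem lv_ne (S : Side nx pv c X σ T a) {t : ℝ} (ht : t ∈ Icc 0 T) {i : ι} (hi : i ≠ c)
    {z : ι → ℂ} {M : ℝ} (h : ∀ j, ‖z j‖ ≤ M) : ‖lv nx pv X σ t z i‖ ≤ 2 / a * M := by
  have ha := S.ha
  have hg := S.gap i hi t ht
  have hM : 0 ≤ M := (norm_nonneg _).trans (h i)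
  refine (norm_I_im_le _ (ha.trans_le hg)).trans ?_
  rw [div_mul_eq_mul_div]
  gcongr
  linarith [norm_sub_le (z (nx i)) (z (pv i)), h (nx i), h (pv i)]

theorem lv_c (S : Side nx pv c X σ T a) {t : ℝ} (ht : 0 < t) (z : ι → ℂ) :
    ‖lv nx pv X σ t z c‖ ≤ ‖z (nx c) - z (pv c)‖ / (2 * t) := by
  rw [lv, S.gp_c]
  exact norm_I_im_le _ (by linarith)

theorem app_lin (S : Side nx pv c X σ T a) :
    ∃ C, 0 ≤ C ∧ ∀ (D E W : ℝ → ι → ℂ) (s B : ℝ), 0 < s → s ≤ T → 0 ≤ B →
      (∀ t ∈ Icc s T, ∀ i, HasDerivAt (fun t => D t i) (E t i + lv nx pv X σ t (W t) i) t) →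
      (∀ t i, ‖W t i‖ ≤ ‖D t i‖) → (∀ t ∈ Icc s T, ∀ i, ‖E t i‖ ≤ B) → (∀ i, ‖D T i‖ ≤ B) →
      ∀ t ∈ Icc s T, (∀ i, i ≠ c → ‖D t i‖ ≤ C * B) ∧ ‖D t c‖ ≤ C * B / √t := by
  have ha := S.ha
  obtain ⟨C, hC0, hC⟩ := approach_core c S.hT (by positivity : (0 : ℝ) ≤ 2 / a + 1)
  refine ⟨C, hC0, fun D E W s B hs hsT hB hd hW hE h0 => hC D _ s B hs hsT hB hd ?_ h0⟩
  intro t ht N J hN h1 h2
  have ht0 : 0 < t := hs.trans_le ht.1
  have hJ : 0 ≤ J := (norm_nonneg _).trans h2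
  have z : 0 ≤ 2 / a := by positivity
  refine ⟨fun i hi => (norm_add_le _ _).trans ?_, (norm_add_le _ _).trans ?_⟩
  · have := lv_ne S ⟨ht0.le, ht.2⟩ hi (z := W t) (M := N + J) fun j => (hW t j).trans (by
      by_cases hj : j = c
      · rw [hj]; linarith
      · linarith [h1 j hj])
    nlinarith [hE t ht i]
  · have h3 : ‖W t (nx c) - W t (pv c)‖ / (2 * t) ≤ 2 * N / (2 * t) := by
      gcongr
      linarith [norm_sub_le (W t (nx c)) (W t (pv c)), hW t (nx c), hW t (pv c), h1 _ S.ne1,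
        h1 _ S.ne2]
    rw [mul_div_mul_left _ _ two_ne_zero] at h3
    have h4 : 0 ≤ N / t := by positivity
    nlinarith [hE t ht c, lv_c S ht0 (W t)]

theorem lea_lin (S : Side nx pv c X σ T a) :
    ∃ C, 0 ≤ C ∧ ∀ (D E : ℝ → ι → ℂ) (s B : ℝ), 0 < s → s ≤ T → 0 ≤ B →
      (∀ t ∈ Icc s T, ∀ i, HasDerivAt (fun t => D t i) (E t i + lv nx pv X σ t (D t) i) t) →
      (∀ t ∈ Icc s T, ∀ i, i ≠ c → ‖E t i‖ ≤ B) → (∀ t ∈ Icc s T, ‖E t c‖ ≤ B * s / t ^ 2) →
      (∀ i, ‖D s i‖ ≤ B) → ‖D T‖ ≤ C * B * (1 + (log T - log s)) := by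
  have ha := S.ha
  have hT := S.hT
  obtain ⟨C, hC0, hC⟩ := leave_core c (nx c) (pv c) S.ne1 S.ne2 hT
    (by positivity : (0 : ℝ) ≤ 2 / a + 1)
  refine ⟨C * (1 + √T), by positivity, fun D E s B hs hsT hB hd h1 h2 h0 => ?_⟩
  have hl : 0 ≤ log T - log s := sub_nonneg.2 (log_le_log hs hsT)
  have z : 0 ≤ 2 / a := by positivity
  have z1 : 0 ≤ √T := sqrt_nonneg _
  have z2 : 0 ≤ B * √T := by positivity
  have z3 : 0 ≤ B * (log T - log s) := by positivity
  have z4 : 0 ≤ B * √T * (log T - log s) := by positivity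
  have := hC D _ (fun t => -(B * s) * t⁻¹ + B * log t)
    (fun t => -(B * s) * (-(t ^ 2)⁻¹) + B * t⁻¹) s (B * (1 + √T) * (1 + (log T - log s)))
    hs hsT (by positivity) hd
    (fun t ht => by
      have ht0 : 0 < t := hs.trans_le ht.1
      exact ((hasDerivAt_inv ht0.ne').const_mul _).add ((hasDerivAt_log ht0.ne').const_mul _))
    (fun t ht => by
      have ht0 : 0 < t := hs.trans_le ht.1
      have e : -(B * s) * (-(t ^ 2)⁻¹) = B * s * (t ^ 2)⁻¹ := by ring
      simp only [e]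
      positivity)
    (fun t ht => by
      have ht0 : 0 < t := hs.trans_le ht.1
      have a1 : 0 ≤ B * s * t⁻¹ := by positivity
      have a2 : B * s * s⁻¹ = B := by field_simp
      have a3 : B * log t ≤ B * log T := by gcongr; exact ht.2
      nlinarith)
    (fun t ht i hi => by
      have ht0 : 0 < t := hs.trans_le ht.1
      have hst : 0 < √t := sqrt_pos.2 ht0
      refine (norm_add_le _ _).trans ?_
      have a1 := lv_ne S ⟨ht0.le, ht.2⟩ hi (norm_le_pi_norm (D t))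
      have a2 : B ≤ B * (1 + √T) * (1 + (log T - log s)) / √t := by
        rw [le_div_iff₀ hst]
        have : B * √t ≤ B * √T := by gcongr; exact ht.2
        nlinarith
      have a3 : 0 ≤ 2 / a * (B * (1 + √T) * (1 + (log T - log s)) / √t) := by positivity
      nlinarith [h1 t ht i hi, norm_nonneg (D t)])
    (fun t ht => by
      have ht0 : 0 < t := hs.trans_le ht.1
      refine (norm_add_le _ _).trans ?_
      set p := D t (nx c) - D t (pv c) - (D s (nx c) - D s (pv c)) with hp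
      have a1 : ‖D t (nx c) - D t (pv c)‖ / (2 * t) ≤ (‖p‖ + 2 * B) / (2 * t) := by
        gcongr
        have := norm_add_le p (D s (nx c) - D s (pv c))
        rw [hp, sub_add_cancel, ← hp] at this
        linarith [norm_sub_le (D s (nx c)) (D s (pv c)), h0 (nx c), h0 (pv c)]
      have e1 : (‖p‖ + 2 * B) / (2 * t) = ‖p‖ / t / 2 + B * t⁻¹ := by field_simp
      have e2 : B * s / t ^ 2 = -(B * s) * (-(t ^ 2)⁻¹) := by ring
      have a2 : 0 ≤ ‖p‖ / t := by positivity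
      have a3 := h2 t ht
      rw [e1] at a1
      rw [e2] at a3
      nlinarith [lv_c S ht0 (D t)])
    ((pi_norm_le_iff_of_nonneg (by positivity)).2 fun i => (h0 i).trans (by nlinarith))
    T ⟨hsT, le_rfl⟩
  exact this.trans (le_of_eq (by ring))

theorem LS.zero (S : Side nx pv c X σ T a) {V : ℝ → ι → ℂ} {u : ℝ} (hu : u ∈ Ioc 0 T)
    (h : LS nx pv X σ V u T) (h0 : V T = 0) : V u = 0 := by
  obtain ⟨C, -, hC⟩ := app_lin S
  obtain ⟨a1, a2⟩ := hC V 0 V u 0 hu.1 hu.2 le_rfl (fun t ht i => by simpa using h t ht i)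
    (fun _ _ => le_rfl) (by simp) (by simp [h0]) u ⟨le_rfl, hu.2⟩
  ext i
  by_cases hi : i = c
  · simpa [hi] using a2
  · simpa using a1 i hi

theorem LS.unique (S : Side nx pv c X σ T a) {V W : ℝ → ι → ℂ} {u : ℝ} (hu : u ∈ Ioc 0 T)
    (h : LS nx pv X σ V u T) (h' : LS nx pv X σ W u T) (h0 : V T = W T) : V u = W u := by
  have := (h.add (h'.smul (-1))).zero S hu (by simp [h0])
  simpa [← sub_eq_add_neg, sub_eq_zero] using this

theorem exists_ls (S : Side nx pv c X σ T a) {u : ℝ} (hu : u ∈ Ioc 0 T) (ν : ι → ℂ) :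
    ∃ V : ℝ → ι → ℂ, V T = ν ∧ LS nx pv X σ V u T := by
  have ha := S.ha
  have hu0 := hu.1
  obtain ⟨C, hC0, hC⟩ := app_lin S
  set R := C * ‖ν‖ + C * ‖ν‖ / √u with hR
  have hR0 : 0 ≤ R := by positivity
  set b := min a (2 * u) with hb
  have hb0 : 0 < b := lt_min ha (by linarith)
  let cl : ℝ → ℝ := fun x => max (-R) (min R x)
  have cl1 : ∀ x, |cl x| ≤ R := fun x =>
    abs_le.2 ⟨le_max_left _ _, max_le (by linarith) (min_le_left _ _)⟩
  have cl2 : ∀ x y, |cl x - cl y| ≤ |x - y| := fun x y => by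
    have h1 := abs_max_sub_max_le_max (-R) (min R x) (-R) (min R y)
    have h2 := abs_min_sub_min_le_max R x R y
    simp only [sub_self, abs_zero] at h1 h2
    exact h1.trans (max_le (abs_nonneg _) (h2.trans (max_le (abs_nonneg _) le_rfl)))
  have cl3 : ∀ x, |x| ≤ R → cl x = x := fun x hx => by
    rw [abs_le] at hx
    simp only [cl, min_eq_right hx.2, max_eq_right hx.1]
  have cl4 : ∀ x, |cl x| ≤ |x| := fun x => by
    simpa [cl3 0 (by simpa using hR0)] using cl2 x 0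
  let f : ℝ → (ι → ℂ) → ι → ℂ := fun t z i => Complex.I *
    ((cl (z (nx i)).im - cl (z (pv i)).im) / max b (gp nx pv X σ t i) : ℝ)
  have mx : ∀ t i, 0 < max b (gp nx pv X σ t i) := fun t i => hb0.trans_le (le_max_left _ _)
  let t₀ : Icc (u - 1) (T + 1) := ⟨T, by constructor <;> linarith [hu.2]⟩
  have hA : (0 : ℝ) ≤ T - u + 1 := by linarith [hu.2]
  have hP : IsPicardLindelof f t₀ ν ⟨2 * R / b * (T - u + 1), by positivity⟩ 0
      ⟨2 * R / b, by positivity⟩ ⟨2 / b, by positivity⟩ := by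
    refine ⟨fun t _ => LipschitzWith.lipschitzOnWith ?_, fun x _ => Continuous.continuousOn ?_,
      fun t _ x _ => ?_, ?_⟩
    · refine LipschitzWith.of_dist_le_mul fun x y => ?_
      rw [dist_eq_norm, dist_eq_norm]
      refine (pi_norm_le_iff_of_nonneg (by positivity)).2 fun i => ?_
      have e : (f t x - f t y) i = Complex.I * (((cl (x (nx i)).im - cl (y (nx i)).im) -
          (cl (x (pv i)).im - cl (y (pv i)).im)) / max b (gp nx pv X σ t i) : ℝ) := by
        simp only [f, Pi.sub_apply]; push_cast; ring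
      have h1 : ∀ j, |cl (x j).im - cl (y j).im| ≤ ‖x - y‖ := fun j =>
        (cl2 _ _).trans ((Complex.abs_im_le_norm (x j - y j)).trans (norm_le_pi_norm (x - y) j))
      rw [e, norm_I_mul, abs_div, abs_of_pos (mx t i)]
      change _ ≤ 2 / b * _
      rw [div_mul_eq_mul_div]
      gcongr
      · exact (abs_sub _ _).trans (by linarith [h1 (nx i), h1 (pv i)])
      · exact le_max_left _ _
    · refine continuous_pi fun i => continuous_const.mul (Complex.continuous_ofReal.comp ?_)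
      unfold gp bs
      exact Continuous.div (by fun_prop) (by fun_prop) fun t => (mx t i).ne'
    · refine (pi_norm_le_iff_of_nonneg (by positivity)).2 fun i => ?_
      simp only [f]
      rw [norm_I_mul, abs_div, abs_of_pos (mx t i)]
      change _ ≤ 2 * R / b
      gcongr
      · exact (abs_sub _ _).trans (by linarith [cl1 (x (nx i)).im, cl1 (x (pv i)).im])
      · exact le_max_left _ _
    · change 2 * R / b * max (T + 1 - T) (T - (u - 1)) ≤ 2 * R / b * (T - u + 1) - 0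
      rw [sub_zero]
      gcongr
      exact max_le (by linarith [hu.2]) (by linarith)
  obtain ⟨V, h0, hV⟩ := hP.exists_eq_forall_mem_Icc_hasDerivWithinAt₀
  have hd : ∀ t ∈ Icc u T, ∀ i, HasDerivAt (fun t => V t i)
      (lv nx pv X σ t (fun j => Complex.I * (cl (V t j).im : ℝ)) i) t := fun t ht i => by
    have h1 := (hV t ⟨by linarith [ht.1], by linarith [ht.2]⟩).hasDerivAt
      (Icc_mem_nhds (by linarith [ht.1]) (by linarith [ht.2]))
    refine (hasDerivAt_pi.1 h1 i).congr_deriv ?_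
    have h2 : b ≤ gp nx pv X σ t i := by
      by_cases hi : i = c
      · rw [hi, S.gp_c]; linarith [min_le_right a (2 * u), ht.1]
      · exact (min_le_left _ _).trans (S.gap i hi t ⟨hu0.le.trans ht.1, ht.2⟩)
    simp [f, lv, max_eq_right h2]
  have h0' : V T = ν := h0
  refine ⟨V, h0', fun t ht i => (hd t ht i).congr_deriv ?_⟩
  obtain ⟨a1, a2⟩ := hC V 0 (fun t j => Complex.I * (cl (V t j).im : ℝ)) u ‖ν‖ hu0 hu.2
    (norm_nonneg _) (fun t ht i => by simpa using hd t ht i)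
    (fun t i => by rw [norm_I_mul]; exact (cl4 _).trans (Complex.abs_im_le_norm _)) (by simp)
    (fun i => h0' ▸ norm_le_pi_norm _ i) t ht
  have a3 : ∀ j, cl (V t j).im = (V t j).im := fun j => cl3 _ ((Complex.abs_im_le_norm _).trans (by
    have z1 : 0 ≤ C * ‖ν‖ := by positivity
    have z2 : 0 ≤ C * ‖ν‖ / √u := by positivity
    by_cases hj : j = c
    · have : C * ‖ν‖ / √t ≤ C * ‖ν‖ / √u := by gcongr; exact ht.1
      rw [hj]; linarith
    · linarith [a1 j hj]))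
  simp [lv, a3]

theorem exists_lim (hT : 0 < T) {φ : ℝ → ℂ} {C : ℝ}
    (h : ∀ t₁ t₂, 0 < t₁ → t₁ ≤ t₂ → t₂ ≤ T → ‖φ t₂ - φ t₁‖ ≤ C * √t₂) :
    ∃ z, ∀ t ∈ Ioc 0 T, ‖φ t - z‖ ≤ C * √t := by
  let τ : ℕ → ℝ := fun n => T * (1 / ((n : ℝ) + 1))
  have τ0 : ∀ n, 0 < τ n := fun n => by positivity
  have τ1 : ∀ n m, n ≤ m → τ m ≤ τ n := fun n m hnm => by
    simp only [τ]; gcongr
  have τ2 : ∀ n, τ n ≤ T := fun n => by simpa [τ] using τ1 0 n (Nat.zero_le n)
  have τ3 : Tendsto τ atTop (𝓝 0) := by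
    have := (tendsto_one_div_add_atTop_nhds_zero_nat (𝕜 := ℝ)).const_mul T
    rwa [mul_zero] at this
  have hc : CauchySeq fun n => φ (τ n) := by
    refine cauchySeq_of_le_tendsto_0' (fun n => C * √(τ n)) (fun n m hnm => ?_) ?_
    · rw [dist_eq_norm]
      exact h _ _ (τ0 m) (τ1 n m hnm) (τ2 n)
    · simpa using τ3.sqrt.const_mul C
  obtain ⟨z, hz⟩ := cauchySeq_tendsto_of_complete hc
  refine ⟨z, fun t ht => le_of_tendsto ((tendsto_const_nhds.sub hz).norm) ?_⟩
  filter_upwards [τ3.eventually (ge_mem_nhds ht.1)] with n hn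
  exact h _ _ (τ0 n) hn ht.2

theorem incr_sqrt {φ φ' : ℝ → ℂ} {C u v : ℝ} (hC : 0 ≤ C) (hu : 0 < u) (huv : u ≤ v)
    (hd : ∀ t ∈ Icc u v, HasDerivAt φ (φ' t) t) (h : ∀ t ∈ Icc u v, ‖φ' t‖ ≤ C / √t) :
    ‖φ v - φ u‖ ≤ 2 * C * √v := by
  have := incr_le huv hd (b := fun t => 2 * C * √t) (b' := fun t => 2 * C * (1 / (2 * √t)))
    (fun t ht => (hasDerivAt_sqrt (hu.trans_le ht.1).ne').const_mul _)
    (fun t ht => (h t ht).trans (le_of_eq (by ring)))
  have h1 : 0 ≤ 2 * C * √u := by positivity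
  linarith

theorem exists_rel (S : Side nx pv c X σ T a) (ν : ι → ℂ) : ∃ ζ, Rel nx pv c X σ T ν ζ := by
  have ha := S.ha
  have hT := S.hT
  choose! V hV1 hV2 using fun u (hu : u ∈ Ioc 0 T) => exists_ls S hu ν
  have cons : ∀ u t, 0 < u → u ≤ t → t ≤ T → V t t = V u t := fun u t hu hut ht =>
    LS.unique S ⟨hu.trans_le hut, ht⟩ (hV2 t ⟨hu.trans_le hut, ht⟩)
      ((hV2 u ⟨hu, hut.trans ht⟩).mono hut)
      (by rw [hV1 t ⟨hu.trans_le hut, ht⟩, hV1 u ⟨hu, hut.trans ht⟩])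
  obtain ⟨C, hC0, hC⟩ := app_lin S
  set C₁ := 2 / a * (C * ‖ν‖ * √T + C * ‖ν‖) with hC₁
  have hC₁0 : 0 ≤ C₁ := by positivity
  have h1 : ∀ i, i ≠ c → ∃ z, ∀ t ∈ Ioc 0 T, ‖V t t i - z‖ ≤ 2 * C₁ * √t := fun i hi =>
    exists_lim hT fun u v hu huv hv => by
      have hu' : u ∈ Ioc 0 T := ⟨hu, huv.trans hv⟩
      rw [cons u v hu huv hv]
      refine incr_sqrt (φ := fun t => V u t i) hC₁0 hu huv
        (fun t ht => hV2 u hu' t ⟨ht.1, ht.2.trans hv⟩ i) fun t ht => ?_
      have ht0 : 0 < t := hu.trans_le ht.1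
      have hst : 0 < √t := sqrt_pos.2 ht0
      obtain ⟨a1, a2⟩ := hC (V u) 0 (V u) u ‖ν‖ hu hu'.2 (norm_nonneg _)
        (fun t ht i => by simpa using hV2 u hu' t ht i) (fun _ _ => le_rfl) (by simp)
        (fun i => hV1 u hu' ▸ norm_le_pi_norm _ i) t ⟨ht.1, ht.2.trans hv⟩
      refine (lv_ne S ⟨ht0.le, ht.2.trans hv⟩ hi
        (M := (C * ‖ν‖ * √T + C * ‖ν‖) / √t) fun j => ?_).trans (le_of_eq (by rw [hC₁]; ring))
      have z1 : 0 ≤ C * ‖ν‖ := by positivity
      by_cases hj : j = c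
      · rw [hj]
        refine a2.trans ?_
        gcongr
        exact le_add_of_nonneg_left (by positivity)
      · refine (a1 j hj).trans ?_
        rw [le_div_iff₀ hst]
        have : C * ‖ν‖ * √t ≤ C * ‖ν‖ * √T := by gcongr; exact ht.2.trans hv
        linarith
  choose! ζ hζ using h1
  set ε := (ζ (nx c) - ζ (pv c)).im with hε
  obtain ⟨z, hz⟩ := exists_lim hT (C := 2 * (2 * C₁))
    (φ := fun t => V t t c - Complex.I * (ε / 2 * log t : ℝ)) fun u v hu huv hv => by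
      have hu' : u ∈ Ioc 0 T := ⟨hu, huv.trans hv⟩
      simp only [cons u v hu huv hv]
      refine incr_sqrt (φ := fun t => V u t c - Complex.I * (ε / 2 * log t : ℝ)) (by positivity)
        hu huv (fun t ht => (hV2 u hu' t ⟨ht.1, ht.2.trans hv⟩ c).sub
          ((((hasDerivAt_log (hu.trans_le ht.1).ne').const_mul (ε / 2)).ofReal_comp).const_mul
            Complex.I)) fun t ht => ?_
      have ht0 : 0 < t := hu.trans_le ht.1
      have hst : 0 < √t := sqrt_pos.2 ht0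
      have ht' : t ∈ Ioc 0 T := ⟨ht0, ht.2.trans hv⟩
      have e : lv nx pv X σ t (V u t) c - Complex.I * (ε / 2 * t⁻¹ : ℝ) =
          lv nx pv X σ t (V t t - ζ) c := by
        rw [cons u t hu ht.1 ht'.2]
        simp only [lv, S.gp_c, hε, Pi.sub_apply, Complex.sub_im]
        push_cast
        ring
      rw [e]
      refine (lv_c S ht0 _).trans ?_
      rw [div_le_div_iff₀ (by linarith) hst]
      have a1 : ‖(V t t - ζ) (nx c) - (V t t - ζ) (pv c)‖ ≤ 4 * C₁ * √t := by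
        linarith [norm_sub_le ((V t t - ζ) (nx c)) ((V t t - ζ) (pv c)),
          show ‖(V t t - ζ) (nx c)‖ ≤ _ from hζ _ S.ne1 t ht',
          show ‖(V t t - ζ) (pv c)‖ ≤ _ from hζ _ S.ne2 t ht']
      calc _ ≤ 4 * C₁ * √t * √t := by gcongr
        _ = _ := by rw [mul_assoc _ (√t), mul_self_sqrt ht0.le]; ring
  refine ⟨Function.update ζ c z, 2 * (2 * C₁), by positivity, fun u hu =>
    ⟨V u, hV1 u hu, hV2 u hu, fun i => ?_⟩⟩
  by_cases hi : i = c
  · rw [hi]
    simp only [lg, if_true, Function.update_self, Function.update_of_ne S.ne1,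
      Function.update_of_ne S.ne2, ← hε]
    rw [sub_right_comm]
    exact hz u hu
  · simp only [lg, hi, if_false, sub_zero, Function.update_of_ne hi]
    have : 0 ≤ C₁ * √u := by positivity
    linarith [hζ i hi u hu]

theorem Rel.add {ν ζ ν' ζ' : ι → ℂ} (h : Rel nx pv c X σ T ν ζ) (h' : Rel nx pv c X σ T ν' ζ') :
    Rel nx pv c X σ T (ν + ν') (ζ + ζ') := by
  obtain ⟨C, hC0, hC⟩ := h
  obtain ⟨C', hC0', hC'⟩ := h'
  refine ⟨C + C', by positivity, fun u hu => ?_⟩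
  obtain ⟨V, a1, a2, a3⟩ := hC u hu
  obtain ⟨W, b1, b2, b3⟩ := hC' u hu
  refine ⟨_, by rw [← a1, ← b1], a2.add b2, fun i => ?_⟩
  have e : (V u + W u) i - (ζ + ζ') i - lg nx pv c (ζ + ζ') u i =
      (V u i - ζ i - lg nx pv c ζ u i) + (W u i - ζ' i - lg nx pv c ζ' u i) := by
    simp only [lg, Pi.add_apply, Complex.sub_im, Complex.add_im]
    split_ifs <;> push_cast <;> ring
  rw [e, add_mul]
  exact (norm_add_le _ _).trans (add_le_add (a3 i) (b3 i))

theorem Rel.smul {ν ζ : ι → ℂ} (h : Rel nx pv c X σ T ν ζ) (r : ℝ) :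
    Rel nx pv c X σ T (r • ν) (r • ζ) := by
  obtain ⟨C, hC0, hC⟩ := h
  refine ⟨|r| * C, by positivity, fun u hu => ?_⟩
  obtain ⟨V, a1, a2, a3⟩ := hC u hu
  refine ⟨_, by rw [← a1], a2.smul r, fun i => ?_⟩
  have e : (r • V u) i - (r • ζ) i - lg nx pv c (r • ζ) u i =
      r • (V u i - ζ i - lg nx pv c ζ u i) := by
    simp only [lg, Pi.smul_apply, Complex.sub_im, Complex.real_smul, Complex.mul_im,
      Complex.ofReal_re, Complex.ofReal_im]
    split_ifs <;> push_cast <;> ring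
  rw [e, norm_smul, Real.norm_eq_abs, mul_assoc]
  gcongr
  exact a3 i

theorem nonpos_of_sqrt (hT : 0 < T) {x C : ℝ} (hC : 0 ≤ C)
    (h : ∀ u ∈ Ioc 0 T, x ≤ C * √u * (1 + (log T - log u))) : x ≤ 0 := by
  have t1 := (tend_small 2 1).const_mul (C * (1 + |log T|))
  rw [mul_zero] at t1
  refine ge_of_tendsto t1 ?_
  have t2 : Tendsto (fun l : ℝ => exp (-l) ^ 2) atTop (𝓝 0) := by
    simpa using tendsto_exp_neg_atTop_nhds_zero.pow 2
  filter_upwards [t2.eventually (ge_mem_nhds hT), eventually_ge_atTop 0] with l h1 h2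
  have h3 := h _ ⟨by positivity, h1⟩
  rw [sqrt_sq (exp_pos _).le, log_pow, log_exp] at h3
  refine h3.trans ?_
  rw [abs_two, pow_one, mul_assoc, mul_assoc, mul_left_comm (1 + |log T|)]
  gcongr
  push_cast
  nlinarith [le_abs_self (log T), abs_nonneg (log T)]

theorem Rel.left (S : Side nx pv c X σ T a) {ζ : ι → ℂ} (h : Rel nx pv c X σ T 0 ζ) : ζ = 0 := by
  obtain ⟨C, hC0, hC⟩ := h
  have key : ∀ i, (∀ u, lg nx pv c ζ u i = 0) → ζ i = 0 := fun i hi =>
    norm_le_zero_iff.1 (nonpos_of_sqrt S.hT hC0 fun u hu => by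
      obtain ⟨V, a1, a2, a3⟩ := hC u hu
      have := a3 i
      rw [a2.zero S hu a1, hi, Pi.zero_apply, sub_zero, zero_sub, norm_neg] at this
      exact this.trans (le_mul_of_one_le_right (by positivity)
        (by linarith [log_le_log hu.1 hu.2])))
  have h1 : ∀ i, i ≠ c → ζ i = 0 := fun i hi => key i fun u => if_neg hi
  ext i
  exact key i fun u => by simp [lg, h1 _ S.ne1, h1 _ S.ne2]

theorem Rel.right (S : Side nx pv c X σ T a) {ν : ι → ℂ} (h : Rel nx pv c X σ T ν 0) : ν = 0 := by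
  obtain ⟨C, hC0, hC⟩ := h
  obtain ⟨C₁, hC₁0, hC₁⟩ := lea_lin S
  refine norm_le_zero_iff.1 (nonpos_of_sqrt S.hT (mul_nonneg hC₁0 hC0) fun u hu => ?_)
  obtain ⟨V, a1, a2, a3⟩ := hC u hu
  have hu0 := hu.1
  have := hC₁ V 0 u (C * √u) hu.1 hu.2 (by positivity) (fun t ht i => by simpa using a2 t ht i)
    (fun _ _ _ _ => by simp only [Pi.zero_apply, norm_zero]; positivity)
    (fun _ _ => by simp only [Pi.zero_apply, norm_zero]; positivity)
    (fun i => by simpa [lg] using a3 i)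
  rw [a1] at this
  exact this.trans (le_of_eq (by ring))

theorem rel_reg (S : Side nx pv c X σ T a) (R : Reg nx pv c X σ T η H) :
    Rel nx pv c X σ T (nd (η T)) (Pi.single c Complex.I) := by
  have hH := R.hH
  refine ⟨H * √T, by positivity, fun u hu => ⟨_, rfl, ls_reg R hu.1, fun i => ?_⟩⟩
  have e : nd (η u) i - (Pi.single c Complex.I : ι → ℂ) i -
      lg nx pv c (Pi.single c Complex.I) u i =
      Complex.I * (η u i - (if i = c then 1 else 0) : ℝ) := by
    by_cases hi : i = c <;> simp [lg, nd, hi, S.ne1, S.ne2, mul_sub]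
  rw [e, norm_I_mul]
  refine (R.near u ⟨hu.1.le, hu.2⟩ i).trans ?_
  rw [mul_assoc]
  gcongr
  calc u = √u * √u := (mul_self_sqrt hu.1.le).symm
    _ ≤ _ := by gcongr; exact hu.2

/-- The collision data map is a linear bijection. -/
theorem exists_map (S : Side nx pv c X σ T a) (R : Reg nx pv c X σ T η H) :
    ∃ B : (ι → ℂ) ≃ₗ[ℝ] (ι → ℂ), (∀ ν, Rel nx pv c X σ T ν (B ν)) ∧
      B (nd (η T)) = Pi.single c Complex.I := by
  choose B hB using exists_rel S
  have un : ∀ ν ζ, Rel nx pv c X σ T ν ζ → B ν = ζ := fun ν ζ h => by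
    have := Rel.left S (ζ := B ν + (-1 : ℝ) • ζ) (by simpa using (hB ν).add (h.smul (-1)))
    simpa [← sub_eq_add_neg, sub_eq_zero] using this
  let L : (ι → ℂ) →ₗ[ℝ] (ι → ℂ) :=
    { toFun := B
      map_add' := fun x y => un _ _ ((hB x).add (hB y))
      map_smul' := fun r x => un _ _ ((hB x).smul r) }
  have inj : Function.Injective L := (injective_iff_map_eq_zero L).2 fun ν h => by
    have h1 : B ν = 0 := h
    exact Rel.right S (h1 ▸ hB ν)
  exact ⟨LinearEquiv.ofInjectiveEndo L inj, hB, un _ _ (rel_reg S R)⟩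

end Pool.Agent.MP_62f0b1_an.Xm
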