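import Pool.Agent.MP_62f0b1_an.xm.Coll
import Pool.Agent.MP_62f0b1_an.ft.Mero4

/-!
Commuting meromorphic first integrals of `ξ` on odd-gons are dependent.
-/

set_option autoImplicit false
set_option linter.unusedSectionVars false

open Set Real Filter Topology Asymptotics

namespace Pool.Agent.MP_62f0b1_an.Xm

open Xi Ft

section dbl
variable {ι : Type*} [Fintype ι] [DecidableEq ι]

/-- `N / H ^ d` is constant along orbits, and non-zero leading forms exist at all points or none. -/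
structure Good (nx pv : ι → ι) (N H : (ι → ℂ) → ℝ) (d : ℕ) : Prop where
  inv : ∀ A B, Conn nx pv A B → H A ≠ 0 → H B ≠ 0 → N A * H B ^ d = N B * H A ^ d
  dat : ∀ y y' : ι → ℂ, (∀ i, y (nx i) ≠ y (pv i)) → (∀ i, y' (nx i) ≠ y' (pv i)) →
    (∃ p h, Dat N H y p h) → ∃ p h, Dat N H y' p h

variable {nx pv : ι → ι} {c : ι} {X σ : ι → ℝ} {L : ℝ}

theorem Conn.neg {A B : ι → ℂ} (h : Conn pv nx A B) : Conn nx pv (-B) (-A) := by
  obtain ⟨Z, u, v, huv, rfl, rfl, hZ⟩ := h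
  refine ⟨fun t => -Z (-t), -v, -u, by linarith, by simp, by simp, fun t ht => ?_⟩
  obtain ⟨h1, h2⟩ := hZ (-t) ⟨by linarith [ht.2], by linarith [ht.1]⟩
  refine ⟨fun i h => h1 i (neg_injective h).symm, ?_⟩
  refine (h2.scomp t (hasDerivAt_neg t)).neg.congr_deriv ?_
  ext i
  simp only [fld, Pi.neg_apply, neg_one_smul, neg_neg, neg_sub_neg]

theorem Good.neg {N H : (ι → ℂ) → ℝ} {d : ℕ} (G : Good nx pv N H d) :
    Good pv nx (fun v => N (ContinuousLinearEquiv.neg ℝ v))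
      (fun v => H (ContinuousLinearEquiv.neg ℝ v)) d := by
  refine ⟨fun A B h h1 h2 => (G.inv _ _ h.neg h2 h1).symm, fun y y' h1 h2 ⟨p, h, hd⟩ => ?_⟩
  obtain ⟨p', h', hd'⟩ := G.dat (-y) (-y') (fun i h => h1 i (neg_injective h).symm)
    (fun i h => h2 i (neg_injective h).symm) (by
      have := dat_comp (ContinuousLinearEquiv.neg ℝ) (x := -y)
        (by rwa [ContinuousLinearEquiv.neg_apply, neg_neg])
      simp only [ContinuousLinearEquiv.neg_apply, neg_neg] at this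
      exact ⟨_, _, this⟩)
  exact ⟨_, _, dat_comp (ContinuousLinearEquiv.neg ℝ) hd'⟩

theorem halfQ (D : Dbl nx pv c X σ (L + 1)) (hL : 100 ≤ L) :
    ∃ x : ι → ℝ, |x c - 1| ≤ 1 / 4 ∧ |x (nx c)| ≤ 1 / 2 ∧
      (∀ i, i ≠ c → i ≠ nx c → |x i| ≤ 2 / L) ∧
      ∀ N H d, Good nx pv N H d → DirQ N H d (bp X σ (1 / 2)) (nd x) := by
  let σ' : ι → ℝ := fun i => if i = c then 1 else -σ i
  have hσ : ∀ i, i ≠ c → σ' i = -σ i := fun i hi => if_neg hi
  have hc : σ' c = 1 := if_pos rfl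
  have sg : ∀ i, σ' i = 1 ∨ σ' i = -1 := fun i => by
    by_cases hi : i = c
    · rw [hi, hc]; exact Or.inl rfl
    · rw [hσ i hi]
      rcases D.sgn i with h | h <;> simp [h]
  have far : ∀ i, i ≠ c → i ≠ nx c → ∀ t ∈ Icc (0 : ℝ) (1 / 2), L ≤ gp nx pv X σ t i :=
    fun i h1 h2 t ht => by
      have := D.far i h1 h2
      have a1 := D.mul_le i (nx i)
      have a2 := D.mul_le i (pv i)
      simp only [gp, bs]
      nlinarith [ht.1, ht.2]
  have nr : ∀ t ∈ Icc (0 : ℝ) (1 / 2), 2 * (1 - t) ≤ gp nx pv X σ t (nx c) := fun t _ => by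
    simp only [gp, bs, D.inv2, D.s1, D.s2, D.s3, D.col2]; linarith
  have far' : ∀ i, i ≠ c → i ≠ nx c → ∀ t ∈ Icc (0 : ℝ) (1 / 2), L ≤ gp pv nx X σ' t i :=
    fun i h1 h2 t ht => by
      have := D.far i h1 h2
      simp only [gp, bs, hσ i h1]
      rcases D.sgn i with h | h <;> rcases sg (nx i) with a1 | a1 <;>
        rcases sg (pv i) with a2 | a2 <;> rw [h] at this <;> rw [h, a1, a2] <;>
        linarith [ht.1, ht.2]
  have nr' : ∀ t ∈ Icc (0 : ℝ) (1 / 2), 2 * (1 - t) ≤ gp pv nx X σ' t (nx c) := fun t ht => by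
    simp only [gp, bs, D.inv2, hc, hσ _ D.n5, hσ _ D.n4, D.s2, D.s3, D.col2]; linarith [ht.1]
  have S : Side nx pv c X σ (1 / 2) 1 :=
    ⟨by norm_num, one_pos, D.inv1, D.inv2, D.n5, D.n1, D.sgn, D.s1, D.s2, D.s0, D.col1,
      fun i hi t ht => by
        by_cases h : i = nx c
        · rw [h]; linarith [nr t ht, ht.2]
        · linarith [far i hi h t ht]⟩
  have S' : Side pv nx c X σ' (1 / 2) 1 :=
    ⟨by norm_num, one_pos, D.inv2, D.inv1, D.n1, D.n5, sg, hc, by rw [hσ _ D.n1, D.s0, neg_neg],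
      by rw [hσ _ D.n5, D.s2], D.col1.symm, fun i hi t ht => by
        by_cases h : i = nx c
        · rw [h]; linarith [nr' t ht, ht.2]
        · linarith [far' i hi h t ht]⟩
  obtain ⟨η, K, R⟩ := exists_reg S
  obtain ⟨η', K', R'⟩ := exists_reg S'
  have e1 : pv (nx c) ≠ nx c := by rw [D.inv2]; exact D.n5.symm
  have e2 : nx (nx c) ≠ pv (nx c) := by rw [D.inv2]; exact D.n4
  obtain ⟨b1, b2, b3⟩ := R.bounds S hL D.n5 D.n3 e1 e2 D.n2 far nr
  exact ⟨η (1 / 2), b1, b2, b3, fun N H d G =>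
    collQ S S' hσ R R' (pr_ne D.inv1 D.inv2 D.n2 hL b1 b2 b3) D.n2 G.inv
      (G.dat _ _ S.nocoll fun i => (S'.nocoll i).symm)⟩

theorem twoQ (D : Dbl nx pv c X σ (L + 3)) (hL : 100 ≤ L)
    (hn : 100 * (Fintype.card ι : ℝ) ≤ L) :
    ∃ x x' : ι → ℝ, ∑ i, x i * (x' (nx i) - x' (pv i)) ≠ 0 ∧
      ∀ N H d, Good nx pv N H d →
        DirQ N H d (bp X σ (1 / 2)) (nd x) ∧ DirQ N H d (bp X σ (1 / 2)) (-nd x') := by
  obtain ⟨x, a1, a2, a3, a4⟩ := halfQ (D.mono (L' := L + 1) (by linarith)) hL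
  obtain ⟨x', b1, b2, b3, b4⟩ := halfQ (D.mono (L' := L + 1 + 2) (by linarith)).swap hL
  rw [D.inv2] at b2 b3
  refine ⟨x, x', ?_, fun N H d G => ⟨a4 N H d G, ?_⟩⟩
  · have hL0 : 0 < L := by linarith
    have h5 : 2 / L ≤ 1 / 50 := by rw [div_le_iff₀ hL0]; linarith
    have h6 : 0 ≤ 2 / L := by positivity
    have hx' : ∀ i, |x' i| ≤ 5 / 4 := fun i => by
      by_cases h1 : i = nx c
      · rw [h1, abs_le]; rw [abs_le] at b1; constructor <;> linarith [b1.1, b1.2]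
      by_cases h2 : i = c
      · rw [h2]; linarith
      · linarith [b3 i h1 h2]
    rw [← Finset.add_sum_erase _ _ (Finset.mem_univ c),
      ← Finset.add_sum_erase _ _ (Finset.mem_erase.2 ⟨D.n5, Finset.mem_univ (nx c)⟩), D.inv2]
    have s1 : |∑ i ∈ (Finset.univ.erase c).erase (nx c), x i * (x' (nx i) - x' (pv i))| ≤
        Fintype.card ι * (2 / L * (5 / 2)) := by
      refine (Finset.abs_sum_le_sum_abs _ _).trans ?_
      refine (Finset.sum_le_card_nsmul _ _ (2 / L * (5 / 2)) fun i hi => ?_).trans ?_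
      · simp only [Finset.mem_erase] at hi
        rw [abs_mul]
        gcongr
        · exact a3 i hi.2.1 hi.1
        · linarith [abs_sub (x' (nx i)) (x' (pv i)), hx' (nx i), hx' (pv i)]
      · rw [nsmul_eq_mul]
        gcongr
        exact Finset.card_le_univ _
    have s2 : (Fintype.card ι : ℝ) * (2 / L * (5 / 2)) ≤ 1 / 20 := by
      have : (Fintype.card ι : ℝ) * (2 / L * (5 / 2)) = 5 * Fintype.card ι / L := by ring
      rw [this, div_le_iff₀ hL0]; linarith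
    have s3 := (b3 (pv c) D.n2.symm D.n1).trans h5
    have s4 := (b3 (nx (nx c)) D.n3 D.n4).trans h5
    have s5 := s1.trans s2
    rw [abs_le] at a1 a2 b1 b2 s3 s4 s5
    have s6 : 3 / 4 * (3 / 4 - 1 / 50) ≤ x c * (x' (nx c) - x' (pv c)) :=
      mul_le_mul (by linarith [a1.1]) (by linarith [b1.1, s3.2]) (by norm_num) (by linarith [a1.1])
    have s7 : -(1 / 2 * (1 / 2 + 1 / 50)) ≤ x (nx c) * (x' (nx (nx c)) - x' c) := by
      have : |x (nx c) * (x' (nx (nx c)) - x' c)| ≤ 1 / 2 * (1 / 2 + 1 / 50) := by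
        rw [abs_mul]
        gcongr <;> rw [abs_le] <;> constructor <;> linarith [a2.1, a2.2, s4.1, s4.2, b2.1, b2.2]
      exact (abs_le.1 this).1
    linarith [s5.1]
  · have := dirQ_comp (ContinuousLinearEquiv.neg ℝ) (b4 _ _ d G.neg)
    rwa [ContinuousLinearEquiv.neg_apply, ContinuousLinearEquiv.neg_apply,
      show -bp (fun i => -(X i + σ i)) σ (1 / 2) = bp X σ (1 / 2) by
        ext i
        simp only [bp, bs, Pi.neg_apply]
        push_cast; ring] at this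

end dbl

theorem xi_mero (n : ℕ) [NeZero n] (odd : Odd n) (hn : 5 ≤ n)
    (G : Fin (n - 1) → (Fin n → ℂ) → ℝ) (H : (Fin n → ℂ) → ℝ)
    (hG : ∀ k, AnalyticOnNhd ℝ (G k) {P | IsPolygon P}) (hH : AnalyticOnNhd ℝ H {P | IsPolygon P})
    (tG : ∀ k P, IsPolygon P → ∀ c : ℂ, G k (fun i => P i + c) = G k P)
    (tH : ∀ P, IsPolygon P → ∀ c : ℂ, H (fun i => P i + c) = H P)
    (h2 : ∀ k (γ : ℝ → Fin n → ℂ) (a b : ℝ), a ≤ b →
      (∀ t ∈ Icc a b, IsPolygon (γ t) ∧ HasDerivAt γ (xiField (γ t)) t) →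
      H (γ a) ≠ 0 → H (γ b) ≠ 0 → G k (γ a) / H (γ a) = G k (γ b) / H (γ b))
    (h3 : ∀ k l P, IsPolygon P → H P ≠ 0 → ∀ v,
      (∀ w, omegaForm v w = fderiv ℝ (fun Q => G k Q / H Q) P w) →
      fderiv ℝ (fun Q => G l Q / H Q) P v = 0) (P : Fin n → ℂ) (hP : IsPolygon P) (h0 : H P ≠ 0) :
    ¬ LinearIndependent ℝ fun k => fderiv ℝ (fun Q => G k Q / H Q) P := by
  obtain ⟨k, rfl⟩ : ∃ k, n = k + 2 := ⟨n - 2, by omega⟩
  have hk : Even (k + 1) := Nat.odd_add_one.1 odd |> Nat.not_odd_iff_even.1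
  set L : ℝ := 100 * (k + 2) with hL
  have hL1 : 100 ≤ L := by
    have : (0 : ℝ) ≤ k := Nat.cast_nonneg k
    linarith
  obtain ⟨c, X, σ, D⟩ := exists_dbl hk (by omega) hL1
  obtain ⟨x, x', hx, hinv⟩ := twoQ D hL1 (by rw [hL, Fintype.card_fin]; push_cast; linarith)
  let m : (Fin (k + 2) → ℂ) ≃L[ℝ] (Fin (k + 2) → ℂ) :=
    (LinearEquiv.ofInjectiveEndo midL (midL_inj hk)).toContinuousLinearEquiv
  have hm : ∀ a, m a = mid a := fun _ => rfl
  set y := bp X σ (1 / 2) with hy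
  have hY : IsPolygon (mid y) := by
    rw [polygon_mid]
    intro i h
    have h1 : X (i + 1) + 1 / 2 * σ (i + 1) = X (i - 1) + 1 / 2 * σ (i - 1) := by
      simp only [hy, bp, bs] at h
      exact_mod_cast h
    by_cases a1 : i = c
    · rw [a1, D.s2, D.s0, D.col1] at h1
      linarith
    by_cases a2 : i = c + 1
    · rw [a2, D.s3, D.col2, add_sub_cancel_right, D.s1] at h1
      linarith
    have h2 := D.far i a1 a2
    have h3 : X (i + 1) - X (i - 1) = 1 / 2 * (σ (i - 1) - σ (i + 1)) := by linarith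
    rw [h3] at h2
    nlinarith [D.mul_le i (i + 1), D.mul_le i (i - 1)]
  let F : Fin (k + 2) → (Fin (k + 2) → ℂ) → ℝ := Fin.cons H G
  have hF : ∀ l, AnalyticOnNhd ℝ (F l) {P | IsPolygon P} := Fin.cases hH hG
  have tF : ∀ l P, IsPolygon P → ∀ c : ℂ, F l (fun i => P i + c) = F l P := Fin.cases tH tG
  refine mero_of_dir hk (Y := m y) (w₁ := m (nd x)) (w₂ := m (-nd x')) hY ?_ F hF tF h3
    (fun Q d hQ => ?_) P hP h0
  · rw [hm, hm, omega_mid hk]
    have : ∀ i, ip (nd x i) (mid (-nd x') i - mid (-nd x') (i - 1)) =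
        -(1 / 2) * (x i * (x' (i + 1) - x' (i - 1))) := fun i => by
      rw [mid_sub]; simp [ip, nd]; ring
    simp only [this, ← Finset.mul_sum]
    exact mul_ne_zero (by norm_num) (mul_ne_zero (by norm_num) hx)
  have a1 : AnalyticOnNhd ℝ (cp F Q) {P | IsPolygon P} := fun P hP =>
    (ev_analytic Q _).comp (analyticAt_pi_iff.2 fun l => hF l P hP)
  have a2 : Good (· + 1) (· - 1) (fun v => cp F Q (m v)) (fun v => H (m v)) d := by
    refine ⟨fun A B ⟨Z, u, v, huv, e1, e2, hZ⟩ b1 b2 => ?_, fun z z' b1 b2 ⟨p, h, hd⟩ => ?_⟩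
    · have c1 : ∀ l, H (m B) * F l (m A) = H (m A) * F l (m B) :=
        Fin.cases (mul_comm _ _) fun l => by
          have := h2 l (fun t => m (Z t)) u v huv (fun t ht => ⟨polygon_mid.2 (hZ t ht).1, by
            rw [hm, xi_mid, ← hm]
            exact m.hasFDerivAt.comp_hasDerivAt t (hZ t ht).2⟩) (by rwa [e1]) (by rwa [e2])
          rw [e1, e2, div_eq_div_iff b1 b2] at this
          change H (m B) * G l (m A) = H (m A) * G l (m B)
          linear_combination this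
      rw [mul_comm, mul_comm (cp F Q (m B)), cp, cp, ← ev_hom hQ, ← ev_hom hQ]
      exact congrArg _ (funext c1)
    · have hz : IsPolygon (m z) := polygon_mid.2 b1
      have hz' : IsPolygon (m z') := polygon_mid.2 b2
      obtain ⟨⟨a, la⟩, ⟨b, lb⟩, na, nb⟩ := dat_comp m.symm (x := m z) (by simpa using hd)
      simp only [m.apply_symm_apply] at la lb
      obtain ⟨a', p', lp, np⟩ := exists_lead_ne preconn_polygon a1
        (ne_of_lead (isOpen_polygon.mem_nhds hz) la na) hz'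
      obtain ⟨b', q', lq, nq⟩ := exists_lead_ne preconn_polygon hH
        (ne_of_lead (isOpen_polygon.mem_nhds hz) lb nb) hz'
      exact ⟨_, _, dat_comp m ⟨⟨a', lp⟩, ⟨b', lq⟩, np, nq⟩⟩
  exact ⟨dirQ_comp m (hinv _ _ d a2).1, dirQ_comp m (hinv _ _ d a2).2⟩

theorem xi_mero' (n : ℕ) [NeZero n] (odd : Odd n) (hn : 5 ≤ n)
    (G H : Fin (n - 1) → (Fin n → ℂ) → ℝ)
    (hG : ∀ k, AnalyticOnNhd ℝ (G k) {P | IsPolygon P})
    (hH : ∀ k, AnalyticOnNhd ℝ (H k) {P | IsPolygon P})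
    (tG : ∀ k P, IsPolygon P → ∀ c : ℂ, G k (fun i => P i + c) = G k P)
    (tH : ∀ k P, IsPolygon P → ∀ c : ℂ, H k (fun i => P i + c) = H k P)
    (h2 : ∀ k (γ : ℝ → Fin n → ℂ) (a b : ℝ), a ≤ b →
      (∀ t ∈ Icc a b, IsPolygon (γ t) ∧ HasDerivAt γ (xiField (γ t)) t) →
      H k (γ a) ≠ 0 → H k (γ b) ≠ 0 → G k (γ a) / H k (γ a) = G k (γ b) / H k (γ b))
    (h3 : ∀ k l P, IsPolygon P → H k P ≠ 0 → H l P ≠ 0 → ∀ v,
      (∀ w, omegaForm v w = fderiv ℝ (fun Q => G k Q / H k Q) P w) →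
      fderiv ℝ (fun Q => G l Q / H l Q) P v = 0)
    (P : Fin n → ℂ) (hP : IsPolygon P) (h0 : ∀ k, H k P ≠ 0) :
    ¬ LinearIndependent ℝ fun k => fderiv ℝ (fun Q => G k Q / H k Q) P := by
  have ne : ∀ {Q}, ∏ l, H l Q ≠ 0 → ∀ l, H l Q ≠ 0 := fun h l =>
    Finset.prod_ne_zero_iff.1 h l (Finset.mem_univ l)
  have e1 : ∀ k Q, ∏ l, H l Q ≠ 0 →
      G k Q * (∏ l ∈ Finset.univ.erase k, H l Q) / ∏ l, H l Q = G k Q / H k Q := fun k Q h => by
    rw [← Finset.mul_prod_erase _ _ (Finset.mem_univ k), mul_div_mul_right]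
    exact Finset.prod_ne_zero_iff.2 fun l _ => ne h l
  have a1 : AnalyticOnNhd ℝ (fun Q => ∏ l, H l Q) {P | IsPolygon P} := fun Q hQ =>
    Finset.analyticAt_fun_prod _ fun l _ => hH l Q hQ
  have e2 : ∀ k Q, IsPolygon Q → ∏ l, H l Q ≠ 0 →
      fderiv ℝ (fun Q => G k Q * (∏ l ∈ Finset.univ.erase k, H l Q) / ∏ l, H l Q) Q =
        fderiv ℝ (fun Q => G k Q / H k Q) Q := fun k Q hQ h =>
    EventuallyEq.fderiv_eq (((a1 Q hQ).continuousAt.eventually_ne h).mono fun X hX => e1 k X hX)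
  have h4 : ∏ l, H l P ≠ 0 := Finset.prod_ne_zero_iff.2 fun l _ => h0 l
  have := xi_mero n odd hn (fun k Q => G k Q * ∏ l ∈ Finset.univ.erase k, H l Q)
    (fun Q => ∏ l, H l Q)
    (fun k Q hQ => (hG k Q hQ).mul (Finset.analyticAt_fun_prod _ fun l _ => hH l Q hQ)) a1
    (fun k Q hQ c => by simp only [tG _ Q hQ c, tH _ Q hQ c])
    (fun Q hQ c => by simp only [tH _ Q hQ c])
    (fun k γ a b hab hγ d1 d2 => by
      rw [e1 k _ d1, e1 k _ d2]
      exact h2 k γ a b hab hγ (ne d1 k) (ne d2 k))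
    (fun k l Q hQ d v hv => by
      rw [e2 l Q hQ d]
      exact h3 k l Q hQ (ne d k) (ne d l) v (by simpa only [e2 k Q hQ d] using hv)) P hP h4
  simpa only [e2 _ P hP h4] using this

end Pool.Agent.MP_62f0b1_an.Xm
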