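import Pool.Agent.MP_62f0b1_an.xi.Defs
import Mathlib.Analysis.Complex.HasPrimitives
import Mathlib.Analysis.Calculus.UniformLimitsDeriv
import Mathlib.Analysis.Calculus.ContDiff.RCLike
import Mathlib.Analysis.ODE.ExistUnique
import Mathlib.Analysis.SpecialFunctions.Complex.Analytic
import Mathlib.Analysis.SpecialFunctions.Pow.Real
import Mathlib.Analysis.Analytic.Uniqueness

/-!
Integral curves of `ξ` are real-analytic in time; hence a quotient of analytic functions that is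
killed by `ξ` takes the same value at the two ends of an integral curve.
-/

set_option autoImplicit false
set_option linter.unusedSectionVars false

open Set Filter Topology Metric

namespace Pool.Agent.MP_62f0b1_an.Xm

section ode
variable {E : Type*} [NormedAddCommGroup E] [NormedSpace ℂ E] [CompleteSpace E]

theorem cplx_ode {W : E → E} {x₀ : E} {R M K : ℝ} (hR : 0 < R) (hM : 0 ≤ M) (hK : 0 ≤ K)
    (hd : ∀ x ∈ closedBall x₀ R, DifferentiableAt ℂ W x) (hb : ∀ x ∈ closedBall x₀ R, ‖W x‖ ≤ M)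
    (hl : ∀ x ∈ closedBall x₀ R, ∀ y ∈ closedBall x₀ R, ‖W x - W y‖ ≤ K * ‖x - y‖) :
    ∃ δ, 0 < δ ∧ ∃ γ : ℂ → E, γ 0 = x₀ ∧ ∀ z ∈ ball (0 : ℂ) δ, HasDerivAt γ (W (γ z)) z := by
  set δ := min (R / (M + 1)) (1 / (2 * (K + 1))) with hδ
  have hδ0 : 0 < δ := lt_min (by positivity) (by positivity)
  have hδ1 : M * δ ≤ R := by
    have : δ * (M + 1) ≤ R := (le_div_iff₀ (by positivity)).1 (min_le_left _ _)
    nlinarith
  have hδ2 : K * δ ≤ 1 / 2 := by
    have : δ * (2 * (K + 1)) ≤ 1 := (le_div_iff₀ (by positivity)).1 (min_le_right _ _)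
    nlinarith
  have mv : ∀ {f f' : ℂ → E} {C : ℝ}, 0 ≤ C → (∀ z ∈ ball (0 : ℂ) δ, HasDerivAt f (f' z) z) →
      (∀ z ∈ ball (0 : ℂ) δ, ‖f' z‖ ≤ C) → ∀ z ∈ ball (0 : ℂ) δ, ‖f z - f 0‖ ≤ C * δ :=
    fun {f f' C} hC h1 h2 z hz => by
      refine ((convex_ball (0 : ℂ) δ).norm_image_sub_le_of_norm_hasDerivWithin_le
        (fun x hx => (h1 x hx).hasDerivWithinAt) h2 (mem_ball_self hδ0) hz).trans ?_
      rw [sub_zero]
      gcongr
      exact (mem_ball_zero_iff.1 hz).le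
  let S := {γ : ℂ → E // (∀ z ∈ ball (0 : ℂ) δ, DifferentiableAt ℂ γ z) ∧
    ∀ z ∈ ball (0 : ℂ) δ, γ z ∈ closedBall x₀ R}
  have step : ∀ γ : S, ∃ γ' : S, γ'.1 0 = x₀ ∧
      ∀ z ∈ ball (0 : ℂ) δ, HasDerivAt γ'.1 (W (γ.1 z)) z := fun γ => by
    obtain ⟨g, g0, hg⟩ := (DifferentiableOn.isExactOn_ball (f := fun z => W (γ.1 z))
      fun z hz => ((hd _ (γ.2.2 z hz)).comp z (γ.2.1 z hz)).differentiableWithinAt).with_val_at 0 x₀
    refine ⟨⟨g, fun z hz => (hg z hz).differentiableAt, fun z hz => ?_⟩, g0, hg⟩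
    rw [mem_closedBall_iff_norm, ← g0]
    exact (mv hM hg (fun z hz => hb _ (γ.2.2 z hz)) z hz).trans hδ1
  choose Φ h0 hΦ using step
  let u : ℕ → S := fun n => Φ^[n] ⟨fun _ => x₀, fun _ _ => differentiableAt_const _,
    fun _ _ => mem_closedBall_self hR.le⟩
  have us : ∀ n, u (n + 1) = Φ (u n) := fun n => Function.iterate_succ_apply' _ _ _
  have geo : ∀ n, ∀ z ∈ ball (0 : ℂ) δ, dist ((u n).1 z) ((u (n + 1)).1 z) ≤ 2 * R / 2 / 2 ^ n := by
    intro n
    induction n with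
    | zero =>
      intro z hz
      rw [dist_comm]
      exact le_of_le_of_eq ((u 1).2.2 z hz) (by ring)
    | succ n ih =>
      intro z hz
      have := mv (f := fun z => (Φ (u n)).1 z - (Φ (u (n + 1))).1 z)
        (C := K * (2 * R / 2 / 2 ^ n)) (by positivity)
        (fun z hz => (hΦ (u n) z hz).sub (hΦ (u (n + 1)) z hz))
        (fun z hz => (hl _ ((u n).2.2 z hz) _ ((u (n + 1)).2.2 z hz)).trans (by
          rw [← dist_eq_norm]; gcongr; exact ih z hz)) z hz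
      rw [h0, h0, sub_self, sub_zero, ← us, ← us, ← dist_eq_norm] at this
      refine this.trans ?_
      calc _ = K * δ * (2 * R / 2 / 2 ^ n) := by ring
        _ ≤ 1 / 2 * (2 * R / 2 / 2 ^ n) := by gcongr
        _ = _ := by rw [pow_succ]; ring
  choose! γ hγ using fun z (hz : z ∈ ball (0 : ℂ) δ) =>
    cauchySeq_tendsto_of_complete (cauchySeq_of_le_geometric_two fun n => geo n z hz)
  have hmem : ∀ z ∈ ball (0 : ℂ) δ, γ z ∈ closedBall x₀ R := fun z hz =>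
    isClosed_closedBall.mem_of_tendsto (hγ z hz) (Eventually.of_forall fun n => (u n).2.2 z hz)
  refine ⟨δ, hδ0, γ, ?_, fun z hz => hasDerivAt_of_tendstoUniformlyOn (l := atTop)
    (f := fun n => (u (n + 1)).1) (f' := fun n z => W ((u n).1 z)) (g' := fun z => W (γ z))
    isOpen_ball ?_ (Eventually.of_forall fun n z hz => us n ▸ hΦ (u n) z hz)
    (fun z hz => (hγ z hz).comp (tendsto_add_atTop_nat 1)) hz⟩
  · refine tendsto_nhds_unique ((hγ 0 (mem_ball_self hδ0)).comp (tendsto_add_atTop_nat 1)) ?_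
    refine tendsto_const_nhds.congr fun n => ?_
    simp only [Function.comp, us, h0]
  · refine Metric.tendstoUniformlyOn_iff.2 fun ε hε => ?_
    have t1 : Tendsto (fun n : ℕ => K * (2 * R / 2 ^ n)) atTop (𝓝 0) := by
      simpa using ((tendsto_pow_atTop_atTop_of_one_lt (one_lt_two (α := ℝ))).const_div_atTop
        (2 * R)).const_mul K
    filter_upwards [t1.eventually (gt_mem_nhds hε)] with n hn z hz
    rw [dist_comm, dist_eq_norm]
    refine ((hl _ ((u n).2.2 z hz) _ (hmem z hz)).trans ?_).trans_lt hn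
    rw [← dist_eq_norm]
    gcongr
    exact dist_le_of_le_geometric_two_of_tendsto (fun n => geo n z hz) (hγ z hz) n

theorem analytic_sol [NormedSpace ℝ E] [IsScalarTower ℝ ℂ E] {W : E → E} {Γ : ℝ → E} {t₀ : ℝ}
    (hW : AnalyticAt ℂ W (Γ t₀)) (hΓ : ∀ᶠ t in 𝓝 t₀, HasDerivAt Γ (W (Γ t)) t) :
    AnalyticAt ℝ Γ t₀ := by
  obtain ⟨K, s, hs, hK⟩ := (hW.contDiffAt (n := 1)).exists_lipschitzOnWith
  obtain ⟨R, hR, hb⟩ := nhds_basis_closedBall.eventually_iff.1 (hW.eventually_analyticAt.and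
    ((hW.continuousAt.norm.eventually (gt_mem_nhds (lt_add_one _))).and hs))
  obtain ⟨δ, hδ, γ, h0, hγ⟩ := cplx_ode hR (M := ‖W (Γ t₀)‖ + 1) (by positivity) K.coe_nonneg
    (fun x hx => (hb hx).1.differentiableAt) (fun x hx => (hb hx).2.1.le)
    (fun x hx y hy => by
      simpa only [dist_eq_norm] using hK.dist_le_mul x (hb hx).2.2 y (hb hy).2.2)
  have ha : AnalyticAt ℂ γ 0 := DifferentiableOn.analyticAt
    (fun z hz => (hγ z hz).differentiableAt.differentiableWithinAt) (ball_mem_nhds _ hδ)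
  have e0 : ((t₀ - t₀ : ℝ) : ℂ) = 0 := by simp
  have h1 : AnalyticAt ℝ (fun t : ℝ => ((t - t₀ : ℝ) : ℂ)) t₀ :=
    (Complex.ofRealCLM.analyticAt _).comp (analyticAt_id.sub analyticAt_const)
  have h2 : AnalyticAt ℝ (fun t : ℝ => γ ((t - t₀ : ℝ) : ℂ)) t₀ :=
    AnalyticAt.comp (g := γ) (by rw [e0]; exact ha.restrictScalars) h1
  refine h2.congr (ODE_solution_unique_of_eventually (v := fun _ => W) (s := fun _ => s) (K := K)
    (Eventually.of_forall fun _ => hK) ?_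
    (hΓ.and (hΓ.self_of_nhds.continuousAt.eventually_mem hs)) (by rw [e0, h0]))
  refine Eventually.and ?_ (h2.continuousAt.eventually_mem (by rwa [e0, h0]))
  filter_upwards [h1.continuousAt.eventually_mem (ball_mem_nhds _ hδ)] with t ht
  rw [e0] at ht
  exact ((hγ _ ht).scomp t ((hasDerivAt_id t).sub_const t₀).ofReal_comp).congr_deriv (by simp)

end ode

theorem cpow_aux {d : ℂ} (hd : d ≠ 0) :
    (d * (starRingEnd ℂ) d) ^ (-(1 / 2) : ℂ) = ((‖d‖⁻¹ : ℝ) : ℂ) := by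
  have h1 : 0 < ‖d‖ := norm_pos_iff.2 hd
  rw [Complex.mul_conj', ← Complex.ofReal_pow,
    show (-(1 / 2) : ℂ) = ((-(1 / 2) : ℝ) : ℂ) by push_cast; ring,
    ← Complex.ofReal_cpow (by positivity), ← Real.rpow_natCast, ← Real.rpow_mul h1.le]
  norm_num [Real.rpow_neg_one]

variable {n : ℕ} [NeZero n]

theorem analytic_orbit {γ : ℝ → Fin n → ℂ} {t₀ : ℝ}
    (h : ∀ᶠ t in 𝓝 t₀, IsPolygon (γ t) ∧ HasDerivAt γ (xiField (γ t)) t) : AnalyticAt ℝ γ t₀ := by
  let ρ : (Fin n → ℂ) × (Fin n → ℂ) → Fin n → Fin n → ℂ := fun x i j =>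
    ((x.1 i - x.1 j) * (x.2 i - x.2 j)) ^ (-(1 / 2) : ℂ)
  let W : (Fin n → ℂ) × (Fin n → ℂ) → (Fin n → ℂ) × (Fin n → ℂ) := fun x =>
    (fun i => 1 / 2 * (ρ x i (i - 1) * (x.1 i - x.1 (i - 1)) - ρ x i (i + 1) * (x.1 i - x.1 (i + 1))),
     fun i => 1 / 2 * (ρ x i (i - 1) * (x.2 i - x.2 (i - 1)) - ρ x i (i + 1) * (x.2 i - x.2 (i + 1))))
  let Γ : ℝ → (Fin n → ℂ) × (Fin n → ℂ) := fun t => (γ t, fun i => (starRingEnd ℂ) (γ t i))
  have n1 : ∀ {P : Fin n → ℂ}, IsPolygon P → ∀ i, P i - P (i - 1) ≠ 0 := fun hP i =>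
    sub_ne_zero.2 (hP i)
  have n2 : ∀ {P : Fin n → ℂ}, IsPolygon P → ∀ i, P i - P (i + 1) ≠ 0 := fun hP i =>
    sub_ne_zero.2 fun e => hP (i + 1) (by rw [add_sub_cancel_right, e])
  have hW : AnalyticAt ℂ W (Γ t₀) := by
    have p1 : ∀ i, AnalyticAt ℂ (fun x : (Fin n → ℂ) × (Fin n → ℂ) => x.1 i) (Γ t₀) := fun i =>
      ((ContinuousLinearMap.proj i : (Fin n → ℂ) →L[ℂ] ℂ).analyticAt _).comp analyticAt_fst
    have p2 : ∀ i, AnalyticAt ℂ (fun x : (Fin n → ℂ) × (Fin n → ℂ) => x.2 i) (Γ t₀) := fun i =>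
      ((ContinuousLinearMap.proj i : (Fin n → ℂ) →L[ℂ] ℂ).analyticAt _).comp analyticAt_snd
    have p3 : ∀ i j, γ t₀ i - γ t₀ j ≠ 0 → AnalyticAt ℂ (fun x => ρ x i j) (Γ t₀) :=
      fun i j hij => (((p1 i).sub (p1 j)).mul ((p2 i).sub (p2 j))).cpow analyticAt_const (by
        change (γ t₀ i - γ t₀ j) * ((starRingEnd ℂ) (γ t₀ i) - (starRingEnd ℂ) (γ t₀ j)) ∈ _
        rw [← map_sub, Complex.mul_conj]
        exact Complex.ofReal_mem_slitPlane.2 (Complex.normSq_pos.2 hij))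
    have hP := h.self_of_nhds.1
    exact (analyticAt_pi_iff.2 fun i => analyticAt_const.mul
      (((p3 _ _ (n1 hP i)).mul ((p1 i).sub (p1 _))).sub
        ((p3 _ _ (n2 hP i)).mul ((p1 i).sub (p1 _))))).prod
      (analyticAt_pi_iff.2 fun i => analyticAt_const.mul
        (((p3 _ _ (n1 hP i)).mul ((p2 i).sub (p2 _))).sub
          ((p3 _ _ (n2 hP i)).mul ((p2 i).sub (p2 _)))))
  have := analytic_sol (Γ := Γ) hW (h.mono fun t ⟨hP, hd⟩ => by
    refine (hd.prodMk (hasDerivAt_pi.2 fun i => Complex.conjCLE.hasFDerivAt.comp_hasDerivAt t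
      (hasDerivAt_pi.1 hd i))).congr_deriv ?_
    ext i
    · simp only [W, ρ, Γ, ← map_sub, cpow_aux (n1 hP i), cpow_aux (n2 hP i), xiField,
        Complex.real_smul]
      push_cast
      ring
    · simp only [W, ρ, Γ, ← map_sub, cpow_aux (n1 hP i), cpow_aux (n2 hP i), xiField,
        Complex.real_smul, ContinuousLinearEquiv.coe_coe, Complex.conjCLE_apply, map_mul,
        Complex.conj_ofReal]
      simp only [map_sub, map_mul, Complex.conj_ofReal]
      push_cast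
      ring)
  exact analyticAt_fst.comp this

theorem const_of_deriv {g h : ℝ → ℝ} {u v : ℝ} (huv : u ≤ v) (hg : AnalyticOnNhd ℝ g (Ioo u v))
    (hh : AnalyticOnNhd ℝ h (Ioo u v)) (cg : ContinuousAt g v) (ch : ContinuousAt h v)
    (ch' : ContinuousAt h u) (h1 : h u ≠ 0) (h2 : h v ≠ 0)
    (hd : ∀ t ∈ Icc u v, h t ≠ 0 → HasDerivAt (fun t => g t / h t) 0 t) : g u / h u = g v / h v := by
  rcases huv.eq_or_lt with rfl | huv
  · rfl
  obtain ⟨w, hw, h3⟩ := (nhdsGE_basis_Icc (a := u)).eventually_iff.1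
    (((ch'.eventually_ne h1).and (Iio_mem_nhds huv)).filter_mono nhdsWithin_le_nhds)
  have h4 : ∀ t ∈ Icc u w, g t / h t = g u / h u := constant_of_has_deriv_right_zero
    (fun t ht => (hd t ⟨ht.1, (h3 ht).2.le⟩ (h3 ht).1).continuousAt.continuousWithinAt)
    (fun t ht => (hd t ⟨ht.1, (h3 (Ico_subset_Icc_self ht)).2.le⟩
      (h3 (Ico_subset_Icc_self ht)).1).hasDerivWithinAt)
  have hwv : w < v := (h3 ⟨hw.le, le_rfl⟩).2
  have h5 := (hg.sub (analyticOnNhd_const (v := g u / h u).mul hh)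
    ).eqOn_zero_of_preconnected_of_eventuallyEq_zero isPreconnected_Ioo
    (z₀ := (u + w) / 2) ⟨by linarith, by linarith⟩ (by
      filter_upwards [Icc_mem_nhds (show u < (u + w) / 2 by linarith)
        (show (u + w) / 2 < w by linarith)] with t ht
      simp only [Pi.sub_apply, ← h4 t ht, Pi.zero_apply]
      rw [div_mul_cancel₀ _ (h3 ht).1, sub_self])
  have h6 : g v - g u / h u * h v = 0 := tendsto_nhds_unique
    ((cg.sub (continuousAt_const.mul ch)).tendsto.mono_left (nhdsWithin_le_nhds (s := Iio v)))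
    (tendsto_const_nhds.congr' (by
      filter_upwards [Ioo_mem_nhdsLT huv] with t ht
      exact (h5 ht).symm))
  rw [eq_div_iff h2]
  linarith

theorem flow_const {G H : (Fin n → ℂ) → ℝ} (hG : AnalyticOnNhd ℝ G {P | IsPolygon P})
    (hH : AnalyticOnNhd ℝ H {P | IsPolygon P})
    (h : ∀ P, IsPolygon P → H P ≠ 0 → fderiv ℝ (fun Q => G Q / H Q) P (xiField P) = 0)
    (γ : ℝ → Fin n → ℂ) (a b : ℝ) (hab : a ≤ b)
    (hγ : ∀ t ∈ Icc a b, IsPolygon (γ t) ∧ HasDerivAt γ (xiField (γ t)) t)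
    (h1 : H (γ a) ≠ 0) (h2 : H (γ b) ≠ 0) : G (γ a) / H (γ a) = G (γ b) / H (γ b) := by
  have an : ∀ t ∈ Ioo a b, AnalyticAt ℝ γ t := fun t ht =>
    analytic_orbit (Eventually.mono (Icc_mem_nhds ht.1 ht.2) hγ)
  have co : ∀ {F : (Fin n → ℂ) → ℝ}, AnalyticOnNhd ℝ F {P | IsPolygon P} → ∀ t ∈ Icc a b,
      ContinuousAt (fun t => F (γ t)) t := fun hF t ht =>
    ContinuousAt.comp (hF _ (hγ t ht).1).continuousAt (hγ t ht).2.continuousAt
  exact const_of_deriv (g := fun t => G (γ t)) (h := fun t => H (γ t)) hab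
    (fun t ht => AnalyticAt.comp (hG _ (hγ t (Ioo_subset_Icc_self ht)).1) (an t ht))
    (fun t ht => AnalyticAt.comp (hH _ (hγ t (Ioo_subset_Icc_self ht)).1) (an t ht))
    (co hG b ⟨hab, le_rfl⟩) (co hH b ⟨hab, le_rfl⟩) (co hH a ⟨le_rfl, hab⟩) h1 h2
    fun t ht h0 => (((hG _ (hγ t ht).1).div (hH _ (hγ t ht).1)
      h0).differentiableAt.hasFDerivAt.comp_hasDerivAt t (hγ t ht).2).congr_deriv
        (h _ (hγ t ht).1 h0)

end Pool.Agent.MP_62f0b1_an.Xm
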