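import Pool.Agent.MP_62f0b1_an.xm.Lin

/-!
Comparison of true orbits with solutions of the variational equation away from the collision, and
three estimates next to it.
-/

set_option autoImplicit false
set_option linter.unusedSectionVars false

open Set Real Filter Topology

namespace Pool.Agent.MP_62f0b1_an.Xm

open Xi

variable {ι : Type*} [Fintype ι] [DecidableEq ι]
variable {nx pv : ι → ι} {c : ι} {X σ σ' : ι → ℝ} {T a T' a' : ℝ}

theorem dv_deriv {r u : ℝ} {Z V : ℝ → ι → ℂ} (hZ : Sol nx pv r Z u T) (hV : LS nx pv X σ V u T)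
    {t : ℝ} (ht : t ∈ Icc u T) (i : ι) :
    HasDerivAt (fun t => dv X σ Z t i - V t i)
      (er nx pv X σ r Z t i + lv nx pv X σ t (fun j => dv X σ Z t j - V t j) i) t := by
  refine (((hZ t ht i).sub (hasDerivAt_bs X σ t i)).sub (hV t ht i)).congr_deriv ?_
  simp only [er, lv, dv, Complex.sub_im, Complex.ofReal_im]
  push_cast
  ring

theorem er_le (S : Side nx pv c X σ T a) {r u M : ℝ} (hr : 0 < r) (hru : r ≤ u) (hra : 2 * r ≤ a)
    {Z : ℝ → ι → ℂ} {t : ℝ} (ht : t ∈ Icc u T) (hM : ∀ i, ‖dv X σ Z t i‖ ≤ M) :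
    (∀ i, i ≠ c → ‖er nx pv X σ r Z t i‖ ≤ 40 / a ^ 2 * M ^ 2) ∧
      ‖er nx pv X σ r Z t c‖ ≤ 10 * M ^ 2 / t ^ 2 := by
  have ha := S.ha
  have ht0 : 0 < t := by linarith [ht.1]
  have h1 : ∀ i, ‖dv X σ Z t (nx i) - dv X σ Z t (pv i)‖ ≤ 2 * M := fun i => by
    linarith [norm_sub_le (dv X σ Z t (nx i)) (dv X σ Z t (pv i)), hM (nx i), hM (pv i)]
  have hM0 : 0 ≤ M := (norm_nonneg _).trans (hM c)
  refine ⟨fun i hi => ?_, ?_⟩
  · have hg := S.gap i hi t ⟨ht0.le, ht.2⟩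
    refine (er_quad S hr Z (hra.trans hg)).trans ?_
    have hg0 := ha.trans_le hg
    calc _ ≤ 10 * (2 * M / a) ^ 2 := by gcongr; exact h1 i
      _ = _ := by field_simp; ring
  · refine (er_quad S hr Z (by rw [S.gp_c]; linarith [ht.1])).trans ?_
    rw [S.gp_c]
    calc _ ≤ 10 * (2 * M / (2 * t)) ^ 2 := by gcongr; exact h1 c
      _ = _ := by field_simp

theorem outer_app (S : Side nx pv c X σ T a) :
    ∃ C, 0 ≤ C ∧ ∀ (r u M : ℝ) (Z V : ℝ → ι → ℂ), 0 < r → r ≤ u → 2 * r ≤ a → u ≤ T →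
      Sol nx pv r Z u T → LS nx pv X σ V u T → (∀ t ∈ Icc u T, ∀ i, ‖dv X σ Z t i‖ ≤ M) →
      (∀ i, dv X σ Z T i = V T i) → ∀ i, ‖dv X σ Z u i - V u i‖ ≤ C * (M ^ 2 / u ^ 2) / √u := by
  have ha := S.ha
  have hT := S.hT
  obtain ⟨C, hC0, hC⟩ := app_lin S
  refine ⟨C * (40 / a ^ 2 * T ^ 2 + 10) * (1 + √T), by positivity, ?_⟩
  intro r u M Z V hr hru hra huT hZ hV hM h0 i
  have hu : 0 < u := hr.trans_le hru
  have hsu : 0 < √u := sqrt_pos.2 hu
  set B := (40 / a ^ 2 * T ^ 2 + 10) * (M ^ 2 / u ^ 2) with hB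
  have hB0 : 0 ≤ B := by positivity
  obtain ⟨a1, a2⟩ := hC (fun t j => dv X σ Z t j - V t j) (er nx pv X σ r Z) _ u B hu huT hB0
    (fun t ht i => dv_deriv hZ hV ht i) (fun _ _ => le_rfl)
    (fun t ht i => by
      obtain ⟨b1, b2⟩ := er_le S hr hru hra ht (hM t ht)
      have z1 : 0 ≤ 40 / a ^ 2 * T ^ 2 * (M ^ 2 / u ^ 2) := by positivity
      have z2 : 0 ≤ 10 * (M ^ 2 / u ^ 2) := by positivity
      by_cases hi : i = c
      · have : 10 * M ^ 2 / t ^ 2 ≤ 10 * M ^ 2 / u ^ 2 := by gcongr; exact ht.1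
        rw [hi, hB, add_mul, ← mul_div_assoc 10]
        linarith
      · have : 40 / a ^ 2 * M ^ 2 ≤ 40 / a ^ 2 * (T ^ 2 * (M ^ 2 / u ^ 2)) := by
          gcongr
          rw [← mul_div_assoc, le_div_iff₀ (by positivity), mul_comm]
          gcongr
        rw [hB, add_mul, mul_assoc]
        linarith [b1 i hi])
    (fun i => by simpa [h0 i] using hB0) u ⟨le_rfl, huT⟩
  have e : C * (40 / a ^ 2 * T ^ 2 + 10) * (1 + √T) * (M ^ 2 / u ^ 2) = C * B + C * B * √T := by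
    rw [hB]; ring
  have z : 0 ≤ C * B := by positivity
  rw [e]
  by_cases hi : i = c
  · rw [hi]
    refine a2.trans ?_
    gcongr
    exact le_add_of_nonneg_right (by positivity)
  · refine (a1 i hi).trans ?_
    rw [le_div_iff₀ hsu]
    have : C * B * √u ≤ C * B * √T := by gcongr
    linarith

theorem outer_lea (S : Side nx pv c X σ T a) :
    ∃ C, 0 ≤ C ∧ ∀ (r u M B : ℝ) (Z V : ℝ → ι → ℂ), 0 < r → r ≤ u → 2 * r ≤ a → u ≤ T → 0 ≤ B →
      Sol nx pv r Z u T → LS nx pv X σ V u T → (∀ t ∈ Icc u T, ∀ i, ‖dv X σ Z t i‖ ≤ M) →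
      (∀ i, ‖dv X σ Z u i - V u i‖ ≤ B) →
      ∀ i, ‖dv X σ Z T i - V T i‖ ≤ C * (B + M ^ 2 / u) * (1 + (log T - log u)) := by
  have ha := S.ha
  have hT := S.hT
  obtain ⟨C, hC0, hC⟩ := lea_lin S
  refine ⟨C * (40 / a ^ 2 * T + 11), by positivity, ?_⟩
  intro r u M B Z V hr hru hra huT hB hZ hV hM h0 i
  have hu : 0 < u := hr.trans_le hru
  have z0 : 0 ≤ M ^ 2 / u := by positivity
  have z1 : 0 ≤ 40 / a ^ 2 * T := by positivity
  have z2 : 0 ≤ 40 / a ^ 2 * T * B := by positivity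
  have z3 : 0 ≤ 40 / a ^ 2 * T * (M ^ 2 / u) := by positivity
  have := hC (fun t j => dv X σ Z t j - V t j) (er nx pv X σ r Z) u
    ((40 / a ^ 2 * T + 11) * (B + M ^ 2 / u)) hu huT (by positivity)
    (fun t ht i => dv_deriv hZ hV ht i)
    (fun t ht i hi => by
      have : 40 / a ^ 2 * M ^ 2 ≤ 40 / a ^ 2 * (T * (M ^ 2 / u)) := by
        gcongr
        rw [← mul_div_assoc, le_div_iff₀ hu, mul_comm]
        gcongr
      nlinarith [(er_le S hr hru hra ht (hM t ht)).1 i hi])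
    (fun t ht => by
      refine (er_le S hr hru hra ht (hM t ht)).2.trans ?_
      refine div_le_div_of_nonneg_right ?_ (sq_nonneg t)
      have e : 10 * M ^ 2 = 10 * (M ^ 2 / u) * u := by field_simp
      rw [e]
      exact mul_le_mul_of_nonneg_right (by nlinarith) hu.le)
    (fun i => (h0 i).trans (by nlinarith))
  exact (norm_le_pi_norm (fun j => dv X σ Z T j - V T j) i).trans (this.trans (le_of_eq (by ring)))

theorem U_in (S : Side nx pv c X σ T a) (S' : Side pv nx c X σ' T' a')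
    (hσ : ∀ i, i ≠ c → σ' i = -σ i) {r M t : ℝ} {z : ι → ℂ} (hr : 0 < r)
    (hra : 2 * r ≤ min a a') (ht : t ∈ Icc (-T') T) (hM : ∀ i, ‖z i - bf c X σ t i‖ ≤ M) {i : ι}
    (hi : i ≠ c) : ‖U r (z (nx i) - z (pv i)) - σ i‖ ≤ 12 * M / min a a' := by
  have ha : 0 < min a a' := lt_min S.ha S'.ha
  have hg := bf_gap S S' hσ ht hi
  have h1 := U_lin hr (hra.trans hg) (S.sgn i)
    ((z (nx i) - bf c X σ t (nx i)) - (z (pv i) - bf c X σ t (pv i)))
  rw [← bf_split S] at h1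
  have hM0 : 0 ≤ M := (norm_nonneg _).trans (hM i)
  have h3 : ‖(z (nx i) - bf c X σ t (nx i)) - (z (pv i) - bf c X σ t (pv i))‖ /
      (σ i * (bf c X σ t (nx i) - bf c X σ t (pv i))) ≤ 2 * M / min a a' := by
    gcongr
    linarith [norm_sub_le (z (nx i) - bf c X σ t (nx i)) (z (pv i) - bf c X σ t (pv i)),
      hM (nx i), hM (pv i)]
  have e : 12 * M / min a a' = 6 * (2 * M / min a a') := by ring
  linarith

variable {r u M : ℝ} {Z : ℝ → ι → ℂ}

theorem inner_ne (S : Side nx pv c X σ T a) (S' : Side pv nx c X σ' T' a')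
    (hσ : ∀ i, i ≠ c → σ' i = -σ i) (hr : 0 < r) (hra : 2 * r ≤ min a a') (hu : u ≤ T)
    (hu' : u ≤ T') (hZ : Sol nx pv r Z (-T') T)
    (hM : ∀ t ∈ Icc (-T') T, ∀ i, ‖Z t i - bf c X σ t i‖ ≤ M) {t : ℝ} (ht : t ∈ Icc (-u) u) {i : ι}
    (hi : i ≠ c) :
    ‖(Z u i - bf c X σ u i) - (Z t i - bf c X σ t i)‖ ≤ 24 * M / min a a' * u := by
  have ha : 0 < min a a' := lt_min S.ha S'.ha
  have sub : ∀ x ∈ Icc t u, x ∈ Icc (-T') T := fun x hx =>
    ⟨by linarith [ht.1, hx.1], hx.2.trans hu⟩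
  have hM0 : 0 ≤ M := (norm_nonneg _).trans (hM t (sub t ⟨le_rfl, ht.2⟩) i)
  have e : ∀ x, bf c X σ x i = bs X σ x i := fun x => if_neg hi
  have := incr_le (f := fun x => Z x i - bs X σ x i) ht.2
    (b := fun x => 12 * M / min a a' * x) (b' := fun _ => 12 * M / min a a' * 1)
    (fun x hx => (hZ x (sub x hx) i).sub (hasDerivAt_bs X σ x i))
    (fun x _ => (hasDerivAt_id x).const_mul _)
    (fun x hx => by rw [mul_one]; exact U_in S S' hσ hr hra (sub x hx) (hM x (sub x hx)) hi)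
  rw [e, e]
  refine this.trans ?_
  have h1 : 12 * M / min a a' * (-u) ≤ 12 * M / min a a' * t := by gcongr; exact ht.1
  have e2 : 24 * M / min a a' = 2 * (12 * M / min a a') := by ring
  rw [e2]
  linarith

theorem hasDerivAt_norm' {w : ℝ → ℂ} {w' : ℂ} {t : ℝ} (h : HasDerivAt w w' t) (h0 : w t ≠ 0) :
    HasDerivAt (fun t => ‖w t‖) (((w t).re * w'.re + (w t).im * w'.im) / ‖w t‖) t := by
  have h1 : HasDerivAt (fun t => (w t).re) w'.re t := Complex.reCLM.hasFDerivAt.comp_hasDerivAt t h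
  have h2 : HasDerivAt (fun t => (w t).im) w'.im t := Complex.imCLM.hasFDerivAt.comp_hasDerivAt t h
  have e : ∀ z : ℂ, √(z.re * z.re + z.im * z.im) = ‖z‖ := fun z => by
    rw [← Complex.normSq_apply, Complex.norm_def]
  have h3 := ((h1.fun_mul h1).fun_add (h2.fun_mul h2)).sqrt (by
    rw [← Complex.normSq_apply]; simpa using h0)
  simp only [e] at h3
  refine h3.congr_deriv ?_
  have := norm_ne_zero_iff.2 h0
  field_simp
  ring

theorem inner_re (S : Side nx pv c X σ T a) (S' : Side pv nx c X σ' T' a')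
    (hσ : ∀ i, i ≠ c → σ' i = -σ i) (hr : 0 < r) (hra : 2 * r ≤ min a a') (hu0 : 0 ≤ u) (hu : u ≤ T)
    (hu' : u ≤ T') (hZ : Sol nx pv r Z (-T') T)
    (hF : ∀ t ∈ Icc (-T') T, (∀ i, Z t (nx i) ≠ Z t (pv i)) ∧ HasDerivAt Z (fld nx pv (Z t)) t)
    (hM : ∀ t ∈ Icc (-T') T, ∀ i, ‖Z t i - bf c X σ t i‖ ≤ M) :
    |((Z u c).re - ‖Z u (nx c) - Z u (pv c)‖ / 2) -
      ((Z (-u) c).re - ‖Z (-u) (nx c) - Z (-u) (pv c)‖ / 2)| ≤ 24 * M / min a a' * u := by
  have sub : ∀ x ∈ Icc (-u) u, x ∈ Icc (-T') T := fun x hx =>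
    ⟨by linarith [hx.1], hx.2.trans hu⟩
  have := incr_le (f := fun x => (Z x c).re - ‖Z x (nx c) - Z x (pv c)‖ / 2) (by linarith : -u ≤ u)
    (b := fun x => 12 * M / min a a' * x) (b' := fun _ => 12 * M / min a a' * 1)
    (fun x hx => HasDerivAt.fun_sub
      (Complex.reCLM.hasFDerivAt.comp_hasDerivAt x (hasDerivAt_pi.1 (hF x (sub x hx)).2 c))
      ((hasDerivAt_norm' ((hZ x (sub x hx) (nx c)).fun_sub (hZ x (sub x hx) (pv c)))
        (sub_ne_zero.2 ((hF x (sub x hx)).1 c))).div_const 2))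
    (fun x _ => (hasDerivAt_id x).const_mul _)
    (fun x hx => by
      have h1 := U_in S S' hσ hr hra (sub x hx) (hM x (sub x hx)) S.ne1
      have h2 := U_in S S' hσ hr hra (sub x hx) (hM x (sub x hx)) S.ne2
      rw [S.snx] at h1
      rw [S.spv] at h2
      set w := Z x (nx c) - Z x (pv c) with hw
      have hw0 : 0 < ‖w‖ := norm_pos_iff.2 (sub_ne_zero.2 ((hF x (sub x hx)).1 c))
      set p := U r (Z x (nx (nx c)) - Z x (pv (nx c))) with hp
      set p' := U r (Z x (nx (pv c)) - Z x (pv (pv c))) with hp'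
      set e := (p - (1 : ℝ)) - (p' - (-1 : ℝ)) with he
      have h3 : ‖e‖ ≤ 2 * (12 * M / min a a') := (norm_sub_le _ _).trans (by linarith)
      have h4 : |w.re * e.re + w.im * e.im| ≤ ‖w‖ * ‖e‖ := by
        have := Complex.abs_re_le_norm (w * (starRingEnd ℂ) e)
        rw [norm_mul, Complex.norm_conj] at this
        simpa using this
      have e1 : Complex.reCLM (fld nx pv (Z x) c) -
          (w.re * (p - p').re + w.im * (p - p').im) / ‖w‖ / 2 =
          -((w.re * e.re + w.im * e.im) / ‖w‖ / 2) := by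
        simp only [fld, ← hw, he, Complex.reCLM_apply, Complex.smul_re, smul_eq_mul, Complex.sub_re,
          Complex.sub_im, Complex.ofReal_re, Complex.ofReal_im]
        field_simp
        ring
      rw [e1, Real.norm_eq_abs, abs_neg, abs_div, abs_div, abs_two, abs_of_pos hw0, mul_one,
        div_le_iff₀ two_pos, div_le_iff₀ hw0]
      nlinarith)
  rw [Real.norm_eq_abs] at this
  exact this.trans (le_of_eq (by ring))

theorem inner_im {ε : ℝ} (hu0 : 0 ≤ u) (hu : u ≤ T) (hu' : u ≤ T')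
    (hF : ∀ t ∈ Icc (-T') T, HasDerivAt Z (fld nx pv (Z t)) t)
    (h : ∀ t ∈ Icc (-u) u, 0 ≤ ε * (Z t (nx c) - Z t (pv c)).im) :
    ε * (Z (-u) c).im ≤ ε * (Z u c).im := by
  have := incr_le (f := fun _ => (0 : ℝ)) (f' := fun _ => 0) (by linarith : -u ≤ u)
    (b := fun x => ε * (Z x c).im) (b' := fun x => ε * (fld nx pv (Z x) c).im)
    (fun x _ => hasDerivAt_const x _)
    (fun x hx => HasDerivAt.const_mul ε (Complex.imCLM.hasFDerivAt.comp_hasDerivAt x
      (hasDerivAt_pi.1 (hF x ⟨by linarith [hx.1], hx.2.trans hu⟩) c)))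
    (fun x hx => by
      simp only [fld, norm_zero, Complex.smul_im, smul_eq_mul]
      rw [mul_left_comm]
      exact mul_nonneg (by positivity) (h x hx))
  simpa using this

theorem norm_near {D : ℝ} {h : ℂ} (hD : 0 < D) (hh : ‖h‖ ≤ D / 2) :
    |‖(D : ℂ) + h‖ - D - h.re| ≤ ‖h‖ ^ 2 / D := by
  have h1 := abs_le.1 (Complex.abs_re_le_norm h)
  have h2 : D + h.re ≤ ‖(D : ℂ) + h‖ := by simpa using Complex.re_le_norm ((D : ℂ) + h)
  have h3 : ‖(D : ℂ) + h‖ ^ 2 = (D + h.re) ^ 2 + h.im ^ 2 := by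
    rw [Complex.sq_norm, Complex.normSq_apply]; simp; ring
  have h4 : h.im ^ 2 ≤ ‖h‖ ^ 2 := sq_le_sq' (abs_le.1 (Complex.abs_im_le_norm h)).1
    (abs_le.1 (Complex.abs_im_le_norm h)).2
  rw [abs_of_nonneg (by linarith), le_div_iff₀ hD]
  nlinarith

end Pool.Agent.MP_62f0b1_an.Xm
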