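import Pool.Agent.MP_62f0b1_an.xm.Outer
import Pool.Agent.MP_62f0b1_an.xm.Pass

/-!
The sharp passage estimate: first order asymptotics of the orbits that pass next to a collision.
-/

set_option autoImplicit false
set_option linter.unusedSectionVars false

open Set Real Filter Topology

namespace Pool.Agent.MP_62f0b1_an.Xm

open Xi

variable {ι : Type*} [Fintype ι] [DecidableEq ι]
variable {nx pv : ι → ι} {c : ι} {X σ σ' : ι → ℝ} {T a T' a' : ℝ} {η η' : ℝ → ι → ℝ} {H H' : ℝ}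

/-- `A` and `B` are the ends of a collision-free orbit. -/
def Conn (nx pv : ι → ι) (A B : ι → ℂ) : Prop :=
  ∃ (Z : ℝ → ι → ℂ) (u v : ℝ), u ≤ v ∧ Z u = A ∧ Z v = B ∧
    ∀ t ∈ Icc u v, (∀ i, Z t (nx i) ≠ Z t (pv i)) ∧ HasDerivAt Z (fld nx pv (Z t)) t

/-- The inner region: all data except the imaginary part of the singular component pass through. -/
theorem inner_all (S : Side nx pv c X σ T a) (S' : Side pv nx c X σ' T' a')
    (hσ : ∀ i, i ≠ c → σ' i = -σ i) {r u M s x K₂ K₃ K₄ lam : ℝ} {Z : ℝ → ι → ℂ} {ζ : ι → ℂ}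
    (hr : 0 < r) (hra : 2 * r ≤ min a a') (hu0 : 0 < u) (hu : u ≤ T) (hu' : u ≤ T') (hs : 0 < s)
    (hZ : Sol nx pv r Z (-T') T)
    (hF : ∀ t ∈ Icc (-T') T, (∀ i, Z t (nx i) ≠ Z t (pv i)) ∧ HasDerivAt Z (fld nx pv (Z t)) t)
    (hM : ∀ t ∈ Icc (-T') T, ∀ i, ‖Z t i - bf c X σ t i‖ ≤ M)
    (h1 : ∀ i, i ≠ c → ‖dv X σ Z u i - s • ζ i‖ ≤ K₂ * x)
    (h2 : ‖dv X σ Z u c - s • (ζ c + Complex.I * lam)‖ ≤ K₂ * x)
    (h3 : K₂ * x + 24 * M / min a a' * u ≤ K₃ * x)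
    (h4 : 2 * (K₃ * x) ≤ s * |(ζ (nx c) - ζ (pv c)).im|)
    (h5 : s * ‖ζ (nx c) - ζ (pv c)‖ + 2 * (K₃ * x) ≤ u)
    (h6 : (s * ‖ζ (nx c) - ζ (pv c)‖ + 2 * (K₃ * x)) ^ 2 / (2 * u) ≤ K₄ * x) :
    (∀ i, i ≠ c → ‖dv X σ' (fun t => Z (-t)) u i - s • ζ i‖ ≤ K₃ * x) ∧
      |(dv X σ' (fun t => Z (-t)) u c).re - s * ((ζ c).re - (ζ (nx c) - ζ (pv c)).re)| ≤
        (3 * K₃ + K₄) * x ∧
      (ζ (nx c) - ζ (pv c)).im * (dv X σ' (fun t => Z (-t)) u c).im ≤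
        (ζ (nx c) - ζ (pv c)).im * (dv X σ Z u c).im := by
  set ω := ζ (nx c) - ζ (pv c) with hω
  have dvs : ∀ i, dv X σ Z u i = Z u i - bf c X σ u i := fun i => by rw [bf_pos S hu0.le]; rfl
  have dvn : ∀ i, dv X σ' (fun t => Z (-t)) u i = Z (-u) i - bf c X σ (-u) i := fun i => by
    rw [bf_neg S' hσ hu0.le]; rfl
  have a1 : ∀ t ∈ Icc (-u) u, ∀ i, i ≠ c → ‖Z t i - bf c X σ t i - s • ζ i‖ ≤ K₃ * x :=
    fun t ht i hi => by
      have b1 := inner_ne S S' hσ hr hra hu hu' hZ hM ht hi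
      have b2 := h1 i hi
      rw [dvs] at b2
      have b3 := norm_sub_le (Z u i - bf c X σ u i - s • ζ i)
        ((Z u i - bf c X σ u i) - (Z t i - bf c X σ t i))
      rw [show Z u i - bf c X σ u i - s • ζ i - ((Z u i - bf c X σ u i) - (Z t i - bf c X σ t i)) =
        Z t i - bf c X σ t i - s • ζ i by ring] at b3
      linarith
  let h : ℝ → ℂ := fun t => Z t (nx c) - Z t (pv c) - (2 * t : ℝ)
  have a2 : ∀ t ∈ Icc (-u) u, ‖h t - s • ω‖ ≤ 2 * (K₃ * x) := fun t ht => by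
    have e : h t - s • ω = (Z t (nx c) - bf c X σ t (nx c) - s • ζ (nx c)) -
        (Z t (pv c) - bf c X σ t (pv c) - s • ζ (pv c)) := by
      simp only [h, hω, ← bf_c S t, smul_sub]; push_cast; ring
    rw [e]
    exact (norm_sub_le _ _).trans (by linarith [a1 t ht _ S.ne1, a1 t ht _ S.ne2])
  have a3 : ∀ t ∈ Icc (-u) u, ‖h t‖ ≤ s * ‖ω‖ + 2 * (K₃ * x) := fun t ht => by
    have := norm_add_le (s • ω) (h t - s • ω)
    rw [add_sub_cancel, norm_smul, Real.norm_eq_abs, abs_of_pos hs] at this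
    linarith [a2 t ht]
  have m1 : u ∈ Icc (-u) u := ⟨by linarith, le_rfl⟩
  have m2 : -u ∈ Icc (-u) u := ⟨le_rfl, by linarith⟩
  refine ⟨fun i hi => by rw [dvn]; exact a1 _ m2 i hi, ?_, ?_⟩
  · have b1 := inner_re S S' hσ hr hra hu0.le hu hu' hZ hF hM
    have b2 := norm_near (D := 2 * u) (h := h u) (by linarith) (by linarith [a3 u m1])
    have b3 := norm_near (D := 2 * u) (h := -h (-u)) (by linarith)
      (by rw [norm_neg]; linarith [a3 _ m2])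
    have e2 : ((2 * u : ℝ) : ℂ) + h u = Z u (nx c) - Z u (pv c) := by simp [h]
    have e3 : ((2 * u : ℝ) : ℂ) + -h (-u) = -(Z (-u) (nx c) - Z (-u) (pv c)) := by
      simp only [h]; push_cast; ring
    rw [e2] at b2
    rw [e3, norm_neg, norm_neg, Complex.neg_re] at b3
    have b4 : ∀ t ∈ Icc (-u) u, ‖h t‖ ^ 2 / (2 * u) ≤ K₄ * x := fun t ht =>
      le_trans (by gcongr; exact a3 t ht) h6
    have b5 : ∀ t ∈ Icc (-u) u, |(h t).re - s * ω.re| ≤ 2 * (K₃ * x) := fun t ht => by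
      have := (Complex.abs_re_le_norm _).trans (a2 t ht)
      simpa using this
    have b6 : |(dv X σ Z u c).re - s * (ζ c).re| ≤ K₂ * x := by
      have := (Complex.abs_re_le_norm _).trans h2
      simpa using this
    have e4 : (dv X σ Z u c).re = (Z u c).re - (X c + u) := by simp [dv, bs, S.sc]
    have e5 : (dv X σ' (fun t => Z (-t)) u c).re = (Z (-u) c).re - (X c + u) := by
      simp [dv, bs, S'.sc]
    have b7 := abs_le.1 (b2.trans (b4 _ m1))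
    have b8 := abs_le.1 (b3.trans (b4 _ m2))
    have b9 := abs_le.1 (b5 _ m1)
    have b10 := abs_le.1 (b5 _ m2)
    rw [e4] at b6
    rw [abs_le] at b1 b6
    rw [e5, abs_le]
    constructor <;> linarith [b1.1, b1.2, b6.1, b6.2, b7.1, b7.2, b8.1, b8.2, b9.1, b9.2, b10.1,
      b10.2]
  · have := inner_im (c := c) (ε := ω.im) hu0.le hu hu' (fun t ht => (hF t ht).2) fun t ht => by
      have b1 : |(Z t (nx c) - Z t (pv c)).im - s * ω.im| ≤ s * |ω.im| := by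
        have := ((Complex.abs_im_le_norm _).trans (a2 t ht)).trans h4
        simpa [h] using this
      have b2 : |ω.im * ((Z t (nx c) - Z t (pv c)).im - s * ω.im)| ≤ s * (ω.im * ω.im) := by
        rw [abs_mul, ← abs_mul_abs_self ω.im, mul_left_comm]
        gcongr
      linarith [(abs_le.1 b2).1]
    simpa [dv] using this

theorem tend_ql (A : ℝ) {δ : ℝ} (hδ : 0 < δ) : ∀ᶠ l : ℝ in atTop, A * (exp (-l) * l) ≤ δ := by
  have h := (tendsto_pow_mul_exp_neg_atTop_nhds_zero 1).const_mul A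
  rw [mul_zero] at h
  filter_upwards [h.eventually (ge_mem_nhds hδ)] with l hl
  rwa [pow_one, mul_comm l] at hl

theorem sharp (S : Side nx pv c X σ T a) (S' : Side pv nx c X σ' T' a')
    (hσ : ∀ i, i ≠ c → σ' i = -σ i) (R : Reg nx pv c X σ T η H) (R' : Reg pv nx c X σ' T' η' H')
    {ν ν' ζ : ι → ℂ} (hg : pr nx pv (η T) ν ≠ 0) (h1 : Rel nx pv c X σ T ν ζ)
    (h2 : Rel pv nx c X σ' T' ν' (ζ - Pi.single c ((ζ (nx c) - ζ (pv c)).re : ℂ)))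
    (hε : (ζ (nx c) - ζ (pv c)).im ≠ 0) :
    ∃ C, 0 ≤ C ∧ ∀ᶠ l : ℝ in atTop, ∃ p : ℝ × (ι → ℂ), |p.1| ≤ C * l ∧
      (ζ (nx c) - ζ (pv c)).im * p.1 ≤ C - (ζ (nx c) - ζ (pv c)).im ^ 2 * l ∧
      ‖p.2‖ ≤ C * (exp (-l) * l) ∧
      Conn nx pv (bp X σ' T' + exp (-l) ^ 8 • (ν' + p.1 • nd (η' T') + p.2))
        (bp X σ T + exp (-l) ^ 8 • ν) := by
  set ω := ζ (nx c) - ζ (pv c) with hω
  set ε := ω.im with hεd
  have hε0 : 0 < |ε| := abs_pos.2 hε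
  have hT := S.hT
  have hT' := S'.hT
  have hH' := R'.hH
  set b := min a a' with hb
  have hb0 : 0 < b := lt_min S.ha S'.ha
  obtain ⟨C₃, hC₃, hP⟩ := passage2 S S' hσ R ν hg 0
  obtain ⟨K₁, hK₁, hV⟩ := h1
  obtain ⟨L₁, hL₁, hV'⟩ := h2
  obtain ⟨C₅, hC₅, happ⟩ := outer_app S
  obtain ⟨C₆, hC₆, hlea⟩ := outer_lea S'
  obtain ⟨C₄, hC₄⟩ : ∃ C₄, C₄ = 8 * C₃ := ⟨_, rfl⟩
  have hC₄0 : 0 ≤ C₄ := by rw [hC₄]; positivity
  obtain ⟨K₂, hK₂⟩ : ∃ K₂, K₂ = K₁ + C₅ * C₄ ^ 2 := ⟨_, rfl⟩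
  have hK₂0 : 0 ≤ K₂ := by rw [hK₂]; positivity
  obtain ⟨K₃, hK₃⟩ : ∃ K₃, K₃ = K₂ + 24 * C₄ / b := ⟨_, rfl⟩
  have hK₃0 : 0 ≤ K₃ := by rw [hK₃]; positivity
  obtain ⟨K₄, hK₄⟩ : ∃ K₄, K₄ = ‖ω‖ + 2 * K₃ := ⟨_, rfl⟩
  have hK₄0 : 0 ≤ K₄ := by rw [hK₄]; positivity
  obtain ⟨K₅, hK₅⟩ : ∃ K₅, K₅ = C₄ + ‖ζ c‖ + |ε| + L₁ := ⟨_, rfl⟩
  have hK₅0 : 0 ≤ K₅ := by rw [hK₅]; positivity
  obtain ⟨K₆, hK₆⟩ : ∃ K₆, K₆ = 3 * K₃ + K₄ ^ 2 + L₁ + K₅ * H' := ⟨_, rfl⟩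
  have hK₆0 : 0 ≤ K₆ := by rw [hK₆]; positivity
  obtain ⟨K₇, hK₇⟩ : ∃ K₇, K₇ = C₆ * (K₆ + C₄ ^ 2) * (3 + |log T'|) := ⟨_, rfl⟩
  have hK₇0 : 0 ≤ K₇ := by rw [hK₇]; positivity
  have z0 : 0 ≤ |ε| * (K₂ + L₁) := by positivity
  refine ⟨K₅ + |ε| * (K₂ + L₁) + K₇, by positivity, ?_⟩
  have t8 : Tendsto (fun l : ℝ => 8 * l) atTop atTop := tendsto_id.const_mul_atTop (by norm_num)
  filter_upwards [t8.eventually hP, eventually_ge_atTop 1, tend_ql 1 one_pos, tend_ql 1 hT,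
    tend_ql 1 hT', tend_ql 2 hb0, tend_ql (2 * K₃) hε0, tend_ql K₄ one_pos]
    with l ⟨Z, hF, hZT, hZ, hM⟩ hl e1 e2 e3 e4 e5 e6
  have es : exp (-(8 * l)) = exp (-l) ^ 8 := by rw [← exp_nat_mul]; congr 1; push_cast; ring
  have el : log (exp (-l) ^ 2) = -(2 * l) := by rw [log_pow, log_exp]; push_cast; ring
  rw [es] at hZT hZ hM
  obtain ⟨q, hq⟩ : ∃ q, q = exp (-l) := ⟨_, rfl⟩
  rw [← hq] at hZT hZ hM e1 e2 e3 e4 e5 e6 el ⊢
  have hq0 : 0 < q := hq ▸ exp_pos _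
  have hl0 : 0 < l := by linarith
  rw [one_mul] at e1 e2 e3
  have hql : q ≤ q * l := le_mul_of_one_le_right hq0.le hl
  have hq1 : q ≤ 1 := hql.trans e1
  have pw : ∀ {j k : ℕ}, j ≤ k → q ^ k ≤ q ^ j := fun h => pow_le_pow_of_le_one hq0.le hq1 h
  have hq2 : q ^ 2 ≤ q := by simpa using pw (show 1 ≤ 2 by norm_num)
  have hu0 : 0 < q ^ 2 := by positivity
  have huT : q ^ 2 ≤ T := by linarith
  have huT' : q ^ 2 ≤ T' := by linarith
  have hs0 : 0 < q ^ 8 := by positivity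
  have hr : 0 < (q ^ 8) ^ 2 := by positivity
  have hru : (q ^ 8) ^ 2 ≤ q ^ 2 := by rw [← pow_mul]; exact pw (by norm_num)
  have hrb : 2 * (q ^ 8) ^ 2 ≤ b := by linarith
  have sq : √(q ^ 2) = q := sqrt_sq hq0.le
  have hM' : ∀ t ∈ Icc (-T') T, ∀ i, ‖Z t i - bf c X σ t i‖ ≤ C₄ * (q ^ 8 * l) := fun t ht i =>
    (hM t ht i).trans (le_of_eq (by rw [hC₄]; ring))
  obtain ⟨V, v1, v2, v3⟩ := hV _ ⟨hu0, huT⟩
  obtain ⟨W, w1, w2, w3⟩ := hV' _ ⟨hu0, huT'⟩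
  rw [sq] at v3 w3
  have nsm : ∀ z : ℂ, ‖q ^ 8 • z‖ = q ^ 8 * ‖z‖ := fun z => by
    rw [norm_smul, Real.norm_eq_abs, abs_of_pos hs0]
  -- approach
  have a1 : ∀ i, ‖dv X σ Z (q ^ 2) i - q ^ 8 • (ζ i + lg nx pv c ζ (q ^ 2) i)‖ ≤ K₂ * q ^ 9 := by
    intro i
    have b1 := happ _ _ (C₄ * (q ^ 8 * l)) Z (fun t => q ^ 8 • V t) hr hru
      (hrb.trans (min_le_left _ _)) huT (fun t ht => hZ t ⟨by linarith [ht.1], ht.2⟩) (v2.smul _)
      (fun t ht i => by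
        have := hM' t ⟨by linarith [ht.1], ht.2⟩ i
        rwa [bf_pos S (hu0.le.trans ht.1)] at this)
      (fun i => by simp [dv, hZT, v1]) i
    have b2 : C₅ * ((C₄ * (q ^ 8 * l)) ^ 2 / (q ^ 2) ^ 2) / √(q ^ 2) =
        C₅ * C₄ ^ 2 * q ^ 9 * (q * l) ^ 2 := by rw [sq]; field_simp
    have b3 : C₅ * C₄ ^ 2 * q ^ 9 * (q * l) ^ 2 ≤ C₅ * C₄ ^ 2 * q ^ 9 * 1 ^ 2 := by gcongr
    have b4 : ‖q ^ 8 • (V (q ^ 2) i - ζ i - lg nx pv c ζ (q ^ 2) i)‖ ≤ q ^ 8 * (K₁ * q) := by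
      rw [nsm]; gcongr; exact v3 i
    have b5 := norm_add_le (dv X σ Z (q ^ 2) i - (q ^ 8 • V (q ^ 2)) i)
      (q ^ 8 • (V (q ^ 2) i - ζ i - lg nx pv c ζ (q ^ 2) i))
    rw [show dv X σ Z (q ^ 2) i - (q ^ 8 • V (q ^ 2)) i +
        q ^ 8 • (V (q ^ 2) i - ζ i - lg nx pv c ζ (q ^ 2) i) =
        dv X σ Z (q ^ 2) i - q ^ 8 • (ζ i + lg nx pv c ζ (q ^ 2) i) by
      simp only [Pi.smul_apply, smul_sub, smul_add]; ring] at b5
    rw [b2] at b1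
    rw [hK₂]
    linarith
  have a2 : ‖dv X σ Z (q ^ 2) c - q ^ 8 • (ζ c + Complex.I * (-(ε * l) : ℝ))‖ ≤ K₂ * q ^ 9 := by
    have := a1 c
    rwa [lg, if_pos rfl, el, ← hω, ← hεd, show ε / 2 * -(2 * l) = -(ε * l) by ring] at this
  -- inner region
  have k4 : q ^ 8 * ‖ω‖ + 2 * (K₃ * q ^ 9) ≤ K₄ * q ^ 8 := by
    have : K₃ * q ^ 9 ≤ K₃ * q ^ 8 := by gcongr ?_ * ?_; exact pw (by norm_num)
    rw [hK₄]; linarith
  have k5 : K₄ * q ≤ 1 := le_trans (by gcongr) e6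
  obtain ⟨i1, i2, i3⟩ := inner_all S S' hσ (K₃ := K₃) (K₄ := K₄ ^ 2) hr hrb hu0 huT huT' hs0 hZ hF
    hM' (fun i hi => by simpa only [lg, hi, if_false, add_zero] using a1 i) a2
    (by
      have : 24 * (C₄ * (q ^ 8 * l)) / b * q ^ 2 = 24 * C₄ / b * q ^ 9 * (q * l) := by ring
      have h3 : 24 * C₄ / b * q ^ 9 * (q * l) ≤ 24 * C₄ / b * q ^ 9 * 1 := by gcongr
      rw [hK₃, ← hb]
      linarith)
    (by
      have h3 : 2 * K₃ * q ≤ |ε| := le_trans (by gcongr) e5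
      calc 2 * (K₃ * q ^ 9) = q ^ 8 * (2 * K₃ * q) := by ring
        _ ≤ _ := by gcongr)
    (k4.trans (by
      calc K₄ * q ^ 8 = K₄ * q * q ^ 7 := by ring
        _ ≤ 1 * q ^ 2 := by gcongr ?_ * ?_; exact pw (by norm_num)
        _ = _ := one_mul _))
    (by
      calc _ ≤ (K₄ * q ^ 8) ^ 2 / (2 * q ^ 2) := by gcongr
        _ = K₄ ^ 2 * (q ^ 14 / 2) := by field_simp
        _ ≤ _ := by
          gcongr
          linarith [pw (show 9 ≤ 14 by norm_num), pow_pos hq0 14])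
  rw [← hω] at i2 i3
  rw [← hεd] at i3
  -- leaving
  set Y : ℝ → ι → ℂ := fun t => Z (-t) with hY
  have hYM : ∀ t ∈ Icc (q ^ 2) T', ∀ i, ‖dv X σ' Y t i‖ ≤ C₄ * (q ^ 8 * l) := fun t ht i => by
    have := hM' (-t) ⟨by linarith [ht.2], by linarith [ht.1]⟩ i
    rwa [bf_neg S' hσ (hu0.le.trans ht.1)] at this
  have w4 : ∀ i, i ≠ c → ‖W (q ^ 2) i - ζ i‖ ≤ L₁ * q := fun i hi => by
    simpa [lg, hi] using w3 i
  have w5 : ‖W (q ^ 2) c - (ζ c - ω.re) - Complex.I * (ε * l : ℝ)‖ ≤ L₁ * q := by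
    have := w3 c
    rwa [lg, if_pos rfl, el, Pi.sub_apply, Pi.sub_apply, Pi.sub_apply, Pi.single_eq_same,
      Pi.single_eq_of_ne S.ne1, Pi.single_eq_of_ne S.ne2, sub_zero, sub_zero, ← neg_sub (ζ (nx c)), ← hω,
      Complex.neg_im, ← hεd, show -ε / 2 * -(2 * l) = ε * l by ring] at this
  have w6 : |(W (q ^ 2) c).re - ((ζ c).re - ω.re)| ≤ L₁ * q := by
    simpa using (Complex.abs_re_le_norm _).trans w5
  have w7 : |(W (q ^ 2) c).im - (ζ c).im - ε * l| ≤ L₁ * q := by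
    simpa using (Complex.abs_im_le_norm _).trans w5
  obtain ⟨m, hm⟩ : ∃ m, m = (dv X σ' Y (q ^ 2) c).im / q ^ 8 - (W (q ^ 2) c).im := ⟨_, rfl⟩
  have hm' : (dv X σ' Y (q ^ 2) c).im = q ^ 8 * (m + (W (q ^ 2) c).im) := by
    rw [hm]; field_simp; ring
  have hL₁q : L₁ * q ≤ L₁ := mul_le_of_le_one_right hL₁ hq1
  have m1 : |m| ≤ K₅ * l := by
    have b1 := (Complex.abs_im_le_norm _).trans (hYM _ ⟨le_rfl, huT'⟩ c)
    rw [hm', abs_mul, abs_of_pos hs0, mul_left_comm] at b1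
    have b2 := abs_le.1 (le_of_mul_le_mul_left b1 hs0)
    have b3 := abs_le.1 (Complex.abs_im_le_norm (ζ c))
    have b4 : |ε * l| ≤ |ε| * l := by rw [abs_mul, abs_of_pos hl0]
    have b5 : ‖ζ c‖ ≤ ‖ζ c‖ * l := le_mul_of_one_le_right (norm_nonneg _) hl
    have b6 : L₁ ≤ L₁ * l := le_mul_of_one_le_right hL₁ hl
    rw [abs_le] at b4 w7
    rw [hK₅, abs_le]
    constructor <;> linarith [b2.1, b2.2, b3.1, b3.2, b4.1, b4.2, w7.1, w7.2]
  have m2 : ε * m ≤ |ε| * (K₂ + L₁) - ε ^ 2 * l := by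
    have b1 : |(dv X σ Z (q ^ 2) c).im - q ^ 8 * ((ζ c).im - ε * l)| ≤ q ^ 8 * K₂ := by
      have h3 : K₂ * q ^ 9 ≤ K₂ * q ^ 8 := by gcongr ?_ * ?_; exact pw (by norm_num)
      have := ((Complex.abs_im_le_norm _).trans a2).trans h3
      rw [mul_comm K₂] at this
      refine le_of_eq_of_le (congrArg _ ?_) this
      simp only [Complex.sub_im, Complex.smul_im, smul_eq_mul, Complex.add_im, Complex.mul_im,
        Complex.I_re, Complex.I_im, Complex.ofReal_re, Complex.ofReal_im]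
      ring
    have b2 : ε * ((dv X σ Z (q ^ 2) c).im - q ^ 8 * ((ζ c).im - ε * l)) ≤ |ε| * (q ^ 8 * K₂) :=
      (le_abs_self _).trans (by rw [abs_mul]; gcongr)
    have b3 : ε * (m + (W (q ^ 2) c).im) ≤ ε * ((ζ c).im - ε * l) + |ε| * K₂ := by
      refine le_of_mul_le_mul_left ?_ hs0
      rw [hm'] at i3
      linarith
    have b4 : -(|ε| * L₁) ≤ ε * ((W (q ^ 2) c).im - (ζ c).im - ε * l) :=
      (abs_le.1 (by rw [abs_mul]; gcongr; exact w7.trans hL₁q)).1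
    have b5 : 0 ≤ ε ^ 2 * l := by positivity
    linarith
  have m3 : ∀ i, q ^ 8 * |m * (η' (q ^ 2) i - if i = c then 1 else 0)| ≤ K₅ * H' * q ^ 9 := by
    intro i
    rw [abs_mul]
    calc _ ≤ q ^ 8 * (K₅ * l * (H' * q ^ 2)) := by
          gcongr
          exact R'.near _ ⟨hu0.le, huT'⟩ i
      _ = K₅ * H' * q ^ 9 * (q * l) := by ring
      _ ≤ K₅ * H' * q ^ 9 * 1 := by gcongr
      _ = _ := mul_one _
  have fin := hlea _ _ (C₄ * (q ^ 8 * l)) (K₆ * q ^ 9) Y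
    (fun t => q ^ 8 • (W t + m • nd (η' t))) hr hru (hrb.trans (min_le_right _ _)) huT'
    (by positivity)
    (fun t ht i => by
      have h3 := (hZ (-t) ⟨by linarith [ht.2], by linarith [ht.1]⟩ i).scomp t (hasDerivAt_neg t)
      refine h3.congr_deriv ?_
      rw [neg_one_smul, ← U_neg, neg_sub])
    ((w2.add ((ls_reg R' hu0).smul m)).smul _) hYM
    (fun i => by
      have z1 : 0 ≤ K₃ * q ^ 9 := by positivity
      have z2 : 0 ≤ K₄ ^ 2 * q ^ 9 := by positivity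
      have b0 := m3 i
      rw [hK₆]
      by_cases hi : i = c
      · subst hi
        refine (Complex.norm_le_abs_re_add_abs_im _).trans ?_
        have r1 : (dv X σ' Y (q ^ 2) i - (q ^ 8 • (W (q ^ 2) + m • nd (η' (q ^ 2)))) i).re =
            ((dv X σ' Y (q ^ 2) i).re - q ^ 8 * ((ζ i).re - ω.re)) -
              q ^ 8 * ((W (q ^ 2) i).re - ((ζ i).re - ω.re)) := by
          simp only [nd, Complex.sub_re, Pi.smul_apply, Pi.add_apply, Complex.smul_re,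
            Complex.add_re, smul_eq_mul, Complex.mul_re, Complex.I_re, Complex.I_im,
            Complex.ofReal_re, Complex.ofReal_im]
          ring
        have r2 : (dv X σ' Y (q ^ 2) i - (q ^ 8 • (W (q ^ 2) + m • nd (η' (q ^ 2)))) i).im =
            -(q ^ 8 * (m * (η' (q ^ 2) i - 1))) := by
          simp only [nd, Complex.sub_im, Pi.smul_apply, Pi.add_apply, Complex.smul_im,
            Complex.add_im, smul_eq_mul, Complex.mul_im, Complex.I_re, Complex.I_im,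
            Complex.ofReal_re, Complex.ofReal_im, hm']
          ring
        have r3 : |q ^ 8 * ((W (q ^ 2) i).re - ((ζ i).re - ω.re))| ≤ q ^ 8 * (L₁ * q) := by
          rw [abs_mul, abs_of_pos hs0]; gcongr
        rw [if_pos rfl] at b0
        rw [r1, r2, abs_neg, abs_mul, abs_of_pos hs0]
        linarith [abs_sub ((dv X σ' Y (q ^ 2) i).re - q ^ 8 * ((ζ i).re - ω.re))
          (q ^ 8 * ((W (q ^ 2) i).re - ((ζ i).re - ω.re)))]
      · have r1 : dv X σ' Y (q ^ 2) i - (q ^ 8 • (W (q ^ 2) + m • nd (η' (q ^ 2)))) i =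
            (dv X σ' Y (q ^ 2) i - q ^ 8 • ζ i) - (q ^ 8 • (W (q ^ 2) i - ζ i) +
              q ^ 8 • (Complex.I * (m * η' (q ^ 2) i : ℝ))) := by
          simp only [nd, Pi.smul_apply, Pi.add_apply, Complex.real_smul]
          push_cast
          ring
        have r3 : ‖q ^ 8 • (W (q ^ 2) i - ζ i)‖ ≤ q ^ 8 * (L₁ * q) := by
          rw [nsm]; gcongr; exact w4 i hi
        rw [if_neg hi, sub_zero, ← norm_I_mul, ← nsm] at b0
        rw [r1]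
        refine (norm_sub_le _ _).trans ((add_le_add_right (norm_add_le _ _) _).trans ?_)
        linarith [i1 i hi])
  refine ⟨(m, fun i => (q ^ 8)⁻¹ • (dv X σ' Y T' i - (q ^ 8 • (W T' + m • nd (η' T'))) i)),
    m1.trans (by gcongr; linarith), by linarith, ?_, Z, -T', T, by linarith, ?_, ?_, hF⟩
  · refine (pi_norm_le_iff_of_nonneg (by positivity)).2 fun i => ?_
    rw [norm_smul, Real.norm_eq_abs, abs_inv, abs_of_pos hs0, inv_mul_le_iff₀ hs0]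
    refine (fin i).trans ?_
    have b1 : (C₄ * (q ^ 8 * l)) ^ 2 / q ^ 2 ≤ C₄ ^ 2 * q ^ 9 := by
      calc _ = C₄ ^ 2 * (q ^ 12 * (q * l) ^ 2) := by field_simp
        _ ≤ C₄ ^ 2 * (q ^ 9 * 1 ^ 2) := by gcongr ?_ * (?_ * ?_ ^ 2); exact pw (by norm_num)
        _ = _ := by ring
    have b2 : 1 + (log T' - log (q ^ 2)) ≤ (3 + |log T'|) * l := by
      have : |log T'| ≤ |log T'| * l := le_mul_of_one_le_right (abs_nonneg _) hl
      rw [el]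
      linarith [le_abs_self (log T')]
    calc _ ≤ C₆ * (K₆ * q ^ 9 + C₄ ^ 2 * q ^ 9) * ((3 + |log T'|) * l) := by
          gcongr
          linarith [log_le_log hu0 huT']
      _ = q ^ 8 * (K₇ * (q * l)) := by rw [hK₇]; ring
      _ ≤ _ := by gcongr; linarith
  · ext i
    simp only [← w1, dv, hY, bp, Pi.add_apply, Pi.smul_apply, smul_add, smul_inv_smul₀ hs0.ne']
    ring
  · ext i
    simp [hZT, bp]

end Pool.Agent.MP_62f0b1_an.Xm
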